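import Pool.Agent.Lib.Vpw.Cluster2
import Pool.Agent.Lib.Vpt.CoinClose

/-!
# Few close pairs (MP_733c86_co)
-/

set_option autoImplicit false

open Finset Pool.Agent.Vps Pool.Agent.Vpt
open scoped ComplexConjugate

namespace Pool.Agent.Vpw

open Classical in
private theorem cp_cover (X Y : Finset ℂ) (r : ℝ) :
    CP X r ⊆ (Y.biUnion fun y => ((ball Y y r).erase y).image fun z => (y, z)) ∪
      (((X \ Y).biUnion fun x => (ball X x r).image fun z => (x, z)) ∪
        ((X \ Y).biUnion fun z => (ball X z r).image fun x => (x, z))) := by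
  rintro ⟨x, z⟩ hp
  rw [CP, Finset.mem_filter, Finset.mem_product] at hp
  obtain ⟨⟨hx, hz⟩, hne, hd⟩ := hp
  simp only at hx hz hne hd
  rw [Finset.mem_union, Finset.mem_union]
  by_cases hxY : x ∈ Y
  · by_cases hzY : z ∈ Y
    · left
      rw [Finset.mem_biUnion]
      exact ⟨x, hxY, Finset.mem_image.2 ⟨z, Finset.mem_erase.2 ⟨Ne.symm hne,
        mem_ball.2 ⟨hzY, hd⟩⟩, rfl⟩⟩
    · right
      right
      rw [Finset.mem_biUnion]
      exact ⟨z, Finset.mem_sdiff.2 ⟨hz, hzY⟩, Finset.mem_image.2 ⟨x,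
        mem_ball.2 ⟨hx, by rwa [dist_comm]⟩, rfl⟩⟩
  · right
    left
    rw [Finset.mem_biUnion]
    exact ⟨x, Finset.mem_sdiff.2 ⟨hx, hxY⟩, Finset.mem_image.2 ⟨z, mem_ball.2 ⟨hz, hd⟩, rfl⟩⟩

open Classical in
private theorem cp_card (X Y : Finset ℂ) (r A K : ℝ)
    (hA : ∀ y ∈ Y, (((ball Y y r).erase y).card : ℝ) ≤ A)
    (hK : ∀ x ∈ X, ((ball X x r).card : ℝ) ≤ K) :
    ((CP X r).card : ℝ) ≤ Y.card * A + 2 * ((X \ Y).card * K) := by
  have h1 : ((Y.biUnion fun y => ((ball Y y r).erase y).image fun z => (y, z)).card : ℝ) ≤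
      Y.card * A := by
    have h2 := Finset.card_biUnion_le (s := Y)
      (t := fun y => ((ball Y y r).erase y).image fun z => (y, z))
    have h3 : ∑ y ∈ Y, ((((ball Y y r).erase y).image fun z => (y, z)).card : ℝ) ≤
        ∑ _y ∈ Y, A := by
      refine Finset.sum_le_sum fun y hy => le_trans ?_ (hA y hy)
      exact_mod_cast Finset.card_image_le
    rw [Finset.sum_const, nsmul_eq_mul] at h3
    refine le_trans ?_ h3
    exact_mod_cast h2
  have h4 : (((X \ Y).biUnion fun x => (ball X x r).image fun z => (x, z)).card : ℝ) ≤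
      (X \ Y).card * K := by
    have h2 := Finset.card_biUnion_le (s := X \ Y)
      (t := fun x => (ball X x r).image fun z => (x, z))
    have h3 : ∑ x ∈ X \ Y, (((ball X x r).image fun z => (x, z)).card : ℝ) ≤
        ∑ _x ∈ X \ Y, K := by
      refine Finset.sum_le_sum fun x hx => le_trans ?_ (hK x (Finset.mem_sdiff.1 hx).1)
      exact_mod_cast Finset.card_image_le
    rw [Finset.sum_const, nsmul_eq_mul] at h3
    refine le_trans ?_ h3
    exact_mod_cast h2
  have h5 : (((X \ Y).biUnion fun z => (ball X z r).image fun x => (x, z)).card : ℝ) ≤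
      (X \ Y).card * K := by
    have h2 := Finset.card_biUnion_le (s := X \ Y)
      (t := fun z => (ball X z r).image fun x => (x, z))
    have h3 : ∑ z ∈ X \ Y, (((ball X z r).image fun x => (x, z)).card : ℝ) ≤
        ∑ _x ∈ X \ Y, K := by
      refine Finset.sum_le_sum fun x hx => le_trans ?_ (hK x (Finset.mem_sdiff.1 hx).1)
      exact_mod_cast Finset.card_image_le
    rw [Finset.sum_const, nsmul_eq_mul] at h3
    refine le_trans ?_ h3
    exact_mod_cast h2
  have h6 := Finset.card_le_card (cp_cover X Y r)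
  have h7 := Finset.card_union_le
    (Y.biUnion fun y => ((ball Y y r).erase y).image fun z => (y, z))
    (((X \ Y).biUnion fun x => (ball X x r).image fun z => (x, z)) ∪
        ((X \ Y).biUnion fun z => (ball X z r).image fun x => (x, z)))
  have h8 := Finset.card_union_le
    ((X \ Y).biUnion fun x => (ball X x r).image fun z => (x, z))
    ((X \ Y).biUnion fun z => (ball X z r).image fun x => (x, z))
  have h9 : ((CP X r).card : ℝ) ≤
      ((Y.biUnion fun y => ((ball Y y r).erase y).image fun z => (y, z)).card : ℝ) +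
      ((((X \ Y).biUnion fun x => (ball X x r).image fun z => (x, z)).card : ℝ) +
        (((X \ Y).biUnion fun z => (ball X z r).image fun x => (x, z)).card : ℝ)) := by
    exact_mod_cast h6.trans (h7.trans (Nat.add_le_add_left h8 _))
  linarith

/-- PROOF. `n = card X`, `E = e + 1`, `r = 50 s = 10 ^ 12 (E / n) ^ 2`, `K = 5 * 10 ^ 12 E`,
`Y` = the `x ∈ X` with `card (coin X x) ≤ 10 ^ 14 E`, `P = card (CP X r)`.
(1) `sum_coin_pairs`: `card (X \ Y) * 10 ^ 14 E ≤ 2 P`.
(2) For `y ∈ Y`, `Q = ball Y y r` (diameter `≤ 2 r`, contains `y`): `cluster2` gives `card Q < 2` or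
`n card Q < 10 ^ 44 E ^ 2`; in both cases `n (card Q - 1) ≤ 10 ^ 44 E ^ 2`. So `CP X r` has at most
`10 ^ 44 E ^ 2` elements in `Y ×ˢ Y`.
(3) `card (ball X x r) ≤ card (ball X x g) ≤ 2 n g + e ≤ K` for `x ∈ X`, `g = 2 * 10 ^ 12 E / n ≥ r`
(`upper` with `ρ = g`). So `CP X r` has at most `2 card (X \ Y) K` elements with a component in `X \ Y`.
(4) `P ≤ 10 ^ 44 E ^ 2 + 2 card (X \ Y) K ≤ 10 ^ 44 E ^ 2 + P / 5`. -/
theorem pairs_bound2 {X : Finset ℂ} {e : ℝ} (h : Ann X e (5 * e / X.card)) (hcol : NoCol X)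
    (hn : 10 ^ 40 * (e + 1) ≤ X.card)
    (hs : Slp X (2 * (10 ^ 5 * (e + 1) / X.card) ^ 2)) :
    ((CP X (50 * (2 * (10 ^ 5 * (e + 1) / X.card) ^ 2))).card : ℝ) ≤ 10 ^ 45 * (e + 1) ^ 2 := by
  classical
  have he : 0 ≤ e := h.nonneg
  set E : ℝ := e + 1 with hE
  have hE1 : 1 ≤ E := by linarith
  set n : ℝ := (X.card : ℝ) with hnn
  have hn0 : 0 < n := by nlinarith
  set τ : ℝ := E / n with hτ
  have hτ0 : 0 < τ := by positivity
  have hτ1 : τ ≤ 1 / 10 ^ 40 := by
    rw [hτ, div_le_div_iff₀ hn0 (by positivity)]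
    linarith
  have hnτ : n * τ = E := by
    rw [hτ]
    field_simp
  set r : ℝ := 50 * (2 * (10 ^ 5 * E / n) ^ 2) with hr
  have hr1 : r = 10 ^ 12 * τ ^ 2 := by
    rw [hr, hτ]
    ring
  have hr0 : 0 ≤ r := by
    rw [hr1]
    positivity
  have he5 : 5 * e / n ≤ 5 * τ := by
    rw [hτ, mul_div_assoc]
    have : e / n ≤ E / n := by
      apply div_le_div_of_nonneg_right _ hn0.le
      linarith
    linarith
  have hT : 5 * e / n ≤ 1 / 10 ^ 6 := by
    refine he5.trans ?_
    have : 5 * τ ≤ 5 * (1 / 10 ^ 40) := by linarith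
    refine this.trans ?_
    norm_num
  have hcs := sum_coin_pairs h hT hcol hs
  set P : ℝ := ((CP X r).card : ℝ) with hP
  set Y : Finset ℂ := X.filter fun x => ((coin X x).card : ℝ) ≤ 10 ^ 14 * E with hY
  have hYX : Y ⊆ X := Finset.filter_subset _ _
  -- (1)
  have h1 : ((X \ Y).card : ℝ) * (10 ^ 14 * E) ≤ 2 * P := by
    refine le_trans ?_ hcs
    have h2 : ∑ _x ∈ X \ Y, (10 ^ 14 * E) ≤ ∑ x ∈ X \ Y, ((coin X x).card : ℝ) := by
      refine Finset.sum_le_sum fun x hx => ?_
      obtain ⟨hx1, hx2⟩ := Finset.mem_sdiff.1 hx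
      rw [hY, Finset.mem_filter] at hx2
      by_contra hcon
      exact hx2 ⟨hx1, (not_le.1 hcon).le⟩
    rw [Finset.sum_const, nsmul_eq_mul] at h2
    refine h2.trans (Finset.sum_le_sum_of_subset_of_nonneg Finset.sdiff_subset fun x _ _ => ?_)
    positivity
  -- (2)
  have hA : ∀ y ∈ Y, (((ball Y y r).erase y).card : ℝ) ≤ 10 ^ 44 * E ^ 2 / n := by
    intro y hy
    rw [le_div_iff₀ hn0]
    have hyQ : y ∈ ball Y y r := mem_ball.2 ⟨hy, by rwa [dist_self]⟩
    have hc : ((ball Y y r).erase y).card + 1 = (ball Y y r).card :=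
      Finset.card_erase_add_one hyQ
    by_contra hcon
    rw [not_le] at hcon
    have hpos : 0 < ((ball Y y r).erase y).card := by
      by_contra h0
      have h00 : ((ball Y y r).erase y).card = 0 := by omega
      rw [h00, Nat.cast_zero, zero_mul] at hcon
      have : 0 ≤ 10 ^ 44 * E ^ 2 := by positivity
      linarith
    refine cluster2 h hn (Q := ball Y y r) (fun z hz => hYX (mem_ball.1 hz).1) (by omega) ?_ ?_ ?_
    · intro z hz
      exact (Finset.mem_filter.1 (mem_ball.1 hz).1).2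
    · intro z hz z' hz'
      have h2 := (mem_ball.1 hz).2
      have h3 := (mem_ball.1 hz').2
      have h4 := dist_triangle_right z z' y
      rw [hr1] at h2 h3
      linarith
    · have h2 : (((ball Y y r).erase y).card : ℝ) ≤ ((ball Y y r).card : ℝ) := by
        exact_mod_cast (by omega : ((ball Y y r).erase y).card ≤ (ball Y y r).card)
      have h3 : (((ball Y y r).erase y).card : ℝ) * n ≤ n * ((ball Y y r).card : ℝ) := by
        rw [mul_comm]
        exact mul_le_mul_of_nonneg_left h2 hn0.le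
      exact hcon.le.trans h3
  -- (3)
  have hK : ∀ x ∈ X, ((ball X x r).card : ℝ) ≤ 5 * 10 ^ 12 * E := by
    intro x hx
    set g : ℝ := 2 * 10 ^ 12 * τ with hg
    have hg0 : 0 < g := by positivity
    have hg1 : g ≤ 1 / 10 ^ 8 := by
      have : g ≤ 2 * 10 ^ 12 * (1 / 10 ^ 40) := by
        rw [hg]
        linarith
      refine this.trans ?_
      norm_num
    have hgT : 5 * e / n ≤ g / 10 ^ 11 := by
      refine he5.trans ?_
      rw [hg]
      linarith
    have hng : 2 * 10 ^ 12 * (e + 1) ≤ n * g := by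
      have : n * g = 2 * 10 ^ 12 * E := by
        rw [hg, ← hnτ]
        ring
      rw [this]
    have hrg : r ≤ g := by
      rw [hr1, hg]
      nlinarith
    have hg10 : g ≤ 1 / 10 := hg1.trans (by norm_num)
    have hu := upper h hg0 hg1 hgT hng le_rfl hg10 hx
    have hb : ((ball X x r).card : ℝ) ≤ ((ball X x g).card : ℝ) := by
      have : (ball X x r).card ≤ (ball X x g).card := by
        refine Finset.card_le_card fun z hz => ?_
        exact mem_ball.2 ⟨(mem_ball.1 hz).1, (mem_ball.1 hz).2.trans hrg⟩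
      exact_mod_cast this
    have h2 : 2 * n * g = 4 * 10 ^ 12 * E := by
      rw [hg, ← hnτ]
      ring
    have h3 : ((ball X x g).card : ℝ) ≤ 2 * n * g + e := hu
    rw [h2] at h3
    linarith
  -- (4)
  have hfin := cp_card X Y r _ _ hA hK
  have hYn : (Y.card : ℝ) ≤ n := by
    rw [hnn]
    exact_mod_cast Finset.card_le_card hYX
  have h5 : (Y.card : ℝ) * (10 ^ 44 * E ^ 2 / n) ≤ 10 ^ 44 * E ^ 2 := by
    have h6 : (Y.card : ℝ) * (10 ^ 44 * E ^ 2 / n) ≤ n * (10 ^ 44 * E ^ 2 / n) :=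
      mul_le_mul_of_nonneg_right hYn (by positivity)
    have h7 : n * (10 ^ 44 * E ^ 2 / n) = 10 ^ 44 * E ^ 2 := by
      field_simp
    linarith
  have h8 : 2 * (((X \ Y).card : ℝ) * (5 * 10 ^ 12 * E)) ≤ P / 5 := by
    have : 2 * (((X \ Y).card : ℝ) * (5 * 10 ^ 12 * E)) =
        ((X \ Y).card : ℝ) * (10 ^ 14 * E) / 10 := by ring
    rw [this]
    linarith
  have h9 : P ≤ 10 ^ 44 * E ^ 2 + P / 5 := by
    have : P ≤ (Y.card : ℝ) * (10 ^ 44 * E ^ 2 / n) +
        2 * (((X \ Y).card : ℝ) * (5 * 10 ^ 12 * E)) := hfin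
    linarith
  have h10 : 0 ≤ E ^ 2 := by positivity
  linarith

end Pool.Agent.Vpw
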