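import Pool.Agent.Lib.Vpt.BlockErr

/-!
# Equal sums over a block isolated among the good distances (MP_733c86_co)
-/

set_option autoImplicit false

open Finset Pool.Agent.Vps Pool.Agent.Vps.BlockSumAux Pool.Agent.Vpt
open scoped ComplexConjugate

namespace Pool.Agent.Vpw

open Classical in
/-- The points on the left of `x1` at a distance in `[b1, b2]`, seen by `x1`, `x2` at distances
outside `Z`. -/
noncomputable def SB (X : Finset ℂ) (x1 x2 : ℂ) (Z : Finset ℝ) (b1 b2 : ℝ) : Finset ℂ :=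
  X.filter fun y => 0 < (y * conj x1).im ∧ (b1 ≤ dist x1 y ∧ dist x1 y ≤ b2) ∧ dist x1 y ∉ Z ∧
    dist x2 y ∉ Z

open Classical in
/-- The points lost at `x2`. -/
noncomputable def LB (X : Finset ℂ) (x1 x2 : ℂ) (Z : Finset ℝ) (b1 b2 : ℝ) : Finset ℂ :=
  X.filter fun y => 0 < (y * conj x1).im ∧ (b1 ≤ dist x1 y ∧ dist x1 y ≤ b2) ∧ dist x1 y ∉ Z ∧
    dist x2 y ∈ Z

open Classical in
/-- The points on the left of `x` at a distance in `[b1, b2]` outside `Z`. -/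
noncomputable def GB (X : Finset ℂ) (x : ℂ) (Z : Finset ℝ) (b1 b2 : ℝ) : Finset ℂ :=
  X.filter fun y => 0 < (y * conj x).im ∧ (b1 ≤ dist x y ∧ dist x y ≤ b2) ∧ dist x y ∉ Z

theorem mem_GB {X : Finset ℂ} {x y : ℂ} {Z : Finset ℝ} {b1 b2 : ℝ} :
    y ∈ GB X x Z b1 b2 ↔
      y ∈ X ∧ 0 < (y * conj x).im ∧ (b1 ≤ dist x y ∧ dist x y ≤ b2) ∧ dist x y ∉ Z := by
  unfold GB
  exact Finset.mem_filter

theorem mem_SB {X : Finset ℂ} {x1 x2 y : ℂ} {Z : Finset ℝ} {b1 b2 : ℝ} :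
    y ∈ SB X x1 x2 Z b1 b2 ↔
      y ∈ X ∧ 0 < (y * conj x1).im ∧ (b1 ≤ dist x1 y ∧ dist x1 y ≤ b2) ∧ dist x1 y ∉ Z ∧
        dist x2 y ∉ Z := by
  unfold SB
  exact Finset.mem_filter

theorem mem_LB {X : Finset ℂ} {x1 x2 y : ℂ} {Z : Finset ℝ} {b1 b2 : ℝ} :
    y ∈ LB X x1 x2 Z b1 b2 ↔
      y ∈ X ∧ 0 < (y * conj x1).im ∧ (b1 ≤ dist x1 y ∧ dist x1 y ≤ b2) ∧ dist x1 y ∉ Z ∧
        dist x2 y ∈ Z := by
  unfold LB
  exact Finset.mem_filter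

theorem GB_Dset {X : Finset ℂ} {x y : ℂ} (hx : x ∈ X) {Z : Finset ℝ} {b1 b2 : ℝ}
    (hb1 : 3 / 10 ≤ b1) (hy : y ∈ GB X x Z b1 b2) : dist x y ∈ Dset X := by
  rw [mem_GB] at hy
  refine dist_mem_Dset hx hy.1 ?_
  intro hxy
  have := hy.2.2.1.1
  rw [hxy, dist_self] at this
  linarith

theorem GB_surj {X : Finset ℂ} {x : ℂ} {b1 b2 : ℝ} (hb1 : 3 / 10 ≤ b1) (hb2 : b2 ≤ 19 / 10)
    {Z : Finset ℝ} (hZ : ∀ d ∈ Dset X, b1 ≤ d → d ≤ b2 → d ∉ Z → Fine X x d) {d : ℝ}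
    (hd : d ∈ Dset X) (h1 : b1 ≤ d) (h2 : d ≤ b2) (hdZ : d ∉ Z) :
    ∃ y ∈ GB X x Z b1 b2, dist x y = d := by
  have hf := hZ d hd h1 h2 hdZ
  obtain ⟨y, hy, hyd⟩ := SL_surj (X := X) (x := x) (b1 := d) (b2 := d) (by linarith) (by linarith)
    (fun d' _ h3 h4 => by
      have : d' = d := le_antisymm h4 h3
      rw [this]; exact hf.1)
    (fun d' _ h3 h4 => by
      have : d' = d := le_antisymm h4 h3
      rw [this]; exact hf.2) hd le_rfl le_rfl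
  rw [SL, Finset.mem_filter] at hy
  refine ⟨y, mem_GB.2 ⟨hy.1, hy.2.2.2, ?_⟩, hyd⟩
  rw [hyd]
  exact ⟨⟨h1, h2⟩, hdZ⟩

theorem GB_inj {X : Finset ℂ} {x : ℂ} (hx : x ∈ X) {b1 b2 : ℝ} (hb1 : 3 / 10 ≤ b1)
    (hb2 : b2 ≤ 19 / 10) {Z : Finset ℝ}
    (hZ : ∀ d ∈ Dset X, b1 ≤ d → d ≤ b2 → d ∉ Z → Fine X x d) {y y' : ℂ}
    (hy : y ∈ GB X x Z b1 b2) (hy' : y' ∈ GB X x Z b1 b2) (heq : dist x y = dist x y') :
    y = y' := by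
  by_contra hne
  have h1 := GB_Dset hx hb1 hy
  rw [mem_GB] at hy hy'
  have hf := hZ _ h1 hy.2.2.1.1 hy.2.2.1.2 hy.2.2.2
  refine hf.2 (Finset.mem_filter.2 ⟨h1, by linarith [hy.2.2.1.1],
    by linarith [hy.2.2.1.2], y, hy.1, y', hy'.1, hne, rfl, heq.symm, ?_⟩)
  exact ⟨fun _ => hy'.2.1, fun _ => hy.2.1⟩

theorem GB_card {X : Finset ℂ} {x : ℂ} (hx : x ∈ X) {b1 b2 : ℝ} (hb1 : 3 / 10 ≤ b1)
    (hb2 : b2 ≤ 19 / 10) {Z : Finset ℝ}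
    (hZ : ∀ d ∈ Dset X, b1 ≤ d → d ≤ b2 → d ∉ Z → Fine X x d) :
    (GB X x Z b1 b2).card = ((Dset X \ Z).filter fun d => b1 ≤ d ∧ d ≤ b2).card := by
  refine Finset.card_bij (fun y _ => dist x y) ?_ ?_ ?_
  · intro y hy
    have h1 := GB_Dset hx hb1 hy
    rw [mem_GB] at hy
    exact Finset.mem_filter.2 ⟨Finset.mem_sdiff.2 ⟨h1, hy.2.2.2⟩, hy.2.2.1⟩
  · intro y hy y' hy' heq
    exact GB_inj hx hb1 hb2 hZ hy hy' heq
  · intro d hd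
    rw [Finset.mem_filter, Finset.mem_sdiff] at hd
    obtain ⟨y, hy, hyd⟩ := GB_surj hb1 hb2 hZ hd.1.1 hd.2.1 hd.2.2 hd.1.2
    exact ⟨y, hy, hyd⟩

theorem GB_sum {X : Finset ℂ} {x : ℂ} (hx : x ∈ X) {b1 b2 : ℝ} (hb1 : 3 / 10 ≤ b1)
    (hb2 : b2 ≤ 19 / 10) {Z : Finset ℝ}
    (hZ : ∀ d ∈ Dset X, b1 ≤ d → d ≤ b2 → d ∉ Z → Fine X x d) :
    ∑ y ∈ GB X x Z b1 b2, dist x y ^ 2 =
      ∑ d ∈ (Dset X \ Z).filter (fun d => b1 ≤ d ∧ d ≤ b2), d ^ 2 := by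
  refine Finset.sum_bij (fun y _ => dist x y) ?_ ?_ ?_ ?_
  · intro y hy
    have h1 := GB_Dset hx hb1 hy
    rw [mem_GB] at hy
    exact Finset.mem_filter.2 ⟨Finset.mem_sdiff.2 ⟨h1, hy.2.2.2⟩, hy.2.2.1⟩
  · intro y hy y' hy' heq
    exact GB_inj hx hb1 hb2 hZ hy hy' heq
  · intro d hd
    rw [Finset.mem_filter, Finset.mem_sdiff] at hd
    obtain ⟨y, hy, hyd⟩ := GB_surj hb1 hb2 hZ hd.1.1 hd.2.1 hd.2.2 hd.1.2
    exact ⟨y, hy, hyd⟩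
  · intro y _
    rfl

/-- The good points of the block are on the left of `x2` too. -/
theorem SB_sub {X : Finset ℂ} {e T : ℝ} (h : Ann X e T) (hT : T ≤ 1 / 10 ^ 6) {δ : ℝ}
    (hδ : δ ≤ 1 / 10 ^ 6) {x1 x2 : ℂ} (hx1 : x1 ∈ X) (hx2 : x2 ∈ X) (h12 : dist x1 x2 ≤ δ)
    {b1 b2 : ℝ} (hb1 : 4 / 10 ≤ b1) (hb2 : b2 ≤ 18 / 10) {Z : Finset ℝ}
    (hiso : ∀ d ∈ Dset X \ Z, b1 - δ ≤ d → d ≤ b2 + δ → b1 ≤ d ∧ d ≤ b2) :
    SB X x1 x2 Z b1 b2 ⊆ GB X x2 Z b1 b2 := by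
  intro y hy
  rw [mem_SB] at hy
  rw [mem_GB]
  obtain ⟨hyX, h3, ⟨h1, h2⟩, hz1, hz2⟩ := hy
  have t1 : dist x2 y ≤ dist x1 y + δ := by
    have := dist_triangle x2 x1 y
    rw [dist_comm x2 x1] at this
    linarith
  have t2 : dist x1 y - δ ≤ dist x2 y := by
    have := dist_triangle x1 x2 y
    linarith
  have hne : x2 ≠ y := by
    intro hxy
    rw [hxy, dist_self] at t2
    linarith
  have hD := dist_mem_Dset hx2 hyX hne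
  have h4 := hiso _ (Finset.mem_sdiff.2 ⟨hD, hz2⟩) (by linarith) (by linarith)
  refine ⟨hyX, ?_, ⟨h4.1, h4.2⟩, hz2⟩
  have h5 := im_lower hT (h.ann x1 hx1) (h.ann y hyX) (by linarith) (by linarith) h3
  have h6 : (y * conj x2).im = (y * conj x1).im - (y * conj (x1 - x2)).im := by
    rw [map_sub, mul_sub, Complex.sub_im]; ring
  have hny : ‖y‖ ≤ 1001 / 1000 := by
    have hsq := abs_le.1 (h.ann y hyX)
    by_contra hcon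
    push Not at hcon
    nlinarith [norm_nonneg y]
  have h7 : |(y * conj (x1 - x2)).im| ≤ 1 / 10 ^ 5 := by
    refine (Complex.abs_im_le_norm _).trans ?_
    rw [norm_mul, Complex.norm_conj, ← Complex.dist_eq]
    have : ‖y‖ * dist x1 x2 ≤ 1001 / 1000 * (1 / 10 ^ 6) :=
      mul_le_mul hny (h12.trans hδ) dist_nonneg (by norm_num)
    linarith
  have h8 := abs_le.1 h7
  rw [h6]
  linarith [h8.2]

/-- PROOF. Let `D'` be the `d ∈ Dset X \ Z` with `b1 ≤ d ≤ b2`, and for `k = 1, 2`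
`G_k = {y ∈ X : 0 < Im (y conj x_k), b1 ≤ dist x_k y ≤ b2, dist x_k y ∉ Z}`. By `hZ` (`Fine`: at least
two points at distance `d`, not on the same side) `y ↦ dist x_k y` is a bijection `G_k → D'`, so
`card G_k = card D'` and `∑ y ∈ G_k, dist x_k y ^ 2 = ∑ d ∈ D', d ^ 2`.
`G_1` is the disjoint union of `SB` and `LB`. `SB = G_1 ∩ G_2`: for `y ∈ SB`, `dist x2 y ∈ Dset X \ Z`
is within `δ` of `dist x1 y`, so in `[b1, b2]` by `hiso`, and the signs of `Im (y conj x1)`,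
`Im (y conj x2)` agree (`im_lower`: absolute value at least `1 / 4`, difference at most `2 δ`); the same
argument from `x2` shows `G_2 \ SB = {y ∈ G_2 : dist x1 y ∈ Z}`, not needed. So
`card (G_2 \ SB) = card D' - card SB = card LB`, and the sum over `SB` is
`∑ y ∈ G_2 \ SB, dist x2 y ^ 2 - ∑ y ∈ LB, dist x1 y ^ 2`, the same number `card LB` of terms, all in
`[b1 ^ 2, b2 ^ 2]`, `b2 ^ 2 - b1 ^ 2 ≤ 3.8 ℓ`. -/
theorem block_err2 {X : Finset ℂ} {e T : ℝ} (h : Ann X e T) (hT : T ≤ 1 / 10 ^ 6) {δ ℓ : ℝ}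
    (hδ : δ ≤ 1 / 10 ^ 6) {x1 x2 : ℂ} (hx1 : x1 ∈ X) (hx2 : x2 ∈ X) (h12 : dist x1 x2 ≤ δ)
    {b1 b2 : ℝ} (hb1 : 4 / 10 ≤ b1) (hb2 : b2 ≤ 18 / 10) (hb : b1 ≤ b2) (hbl : b2 ≤ b1 + ℓ)
    {Z : Finset ℝ}
    (hiso : ∀ d ∈ Dset X \ Z, b1 - δ ≤ d → d ≤ b2 + δ → b1 ≤ d ∧ d ≤ b2)
    (hZ : ∀ d ∈ Dset X, b1 ≤ d → d ≤ b2 → d ∉ Z → Fine X x1 d ∧ Fine X x2 d) :
    |∑ y ∈ SB X x1 x2 Z b1 b2, (dist x1 y ^ 2 - dist x2 y ^ 2)| ≤
        4 * ℓ * ((LB X x1 x2 Z b1 b2).card : ℝ) ∧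
      (((Dset X \ Z).filter fun d => b1 ≤ d ∧ d ≤ b2).card : ℝ) =
        ((SB X x1 x2 Z b1 b2).card : ℝ) + ((LB X x1 x2 Z b1 b2).card : ℝ) := by
  classical
  have hb1' : (3 : ℝ) / 10 ≤ b1 := by linarith
  have hb2' : b2 ≤ 19 / 10 := by linarith
  have hZ1 : ∀ d ∈ Dset X, b1 ≤ d → d ≤ b2 → d ∉ Z → Fine X x1 d :=
    fun d h1 h2 h3 h4 => (hZ d h1 h2 h3 h4).1
  have hZ2 : ∀ d ∈ Dset X, b1 ≤ d → d ≤ b2 → d ∉ Z → Fine X x2 d :=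
    fun d h1 h2 h3 h4 => (hZ d h1 h2 h3 h4).2
  have hdisj : Disjoint (SB X x1 x2 Z b1 b2) (LB X x1 x2 Z b1 b2) := by
    rw [Finset.disjoint_left]
    intro y hy hy'
    rw [mem_SB] at hy
    rw [mem_LB] at hy'
    exact hy.2.2.2.2 hy'.2.2.2.2
  have hun : GB X x1 Z b1 b2 = SB X x1 x2 Z b1 b2 ∪ LB X x1 x2 Z b1 b2 := by
    ext y
    rw [Finset.mem_union, mem_GB, mem_SB, mem_LB]
    by_cases hz : dist x2 y ∈ Z
    · simp only [hz, not_true, and_false, and_true, false_or]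
    · simp only [hz, not_false_iff, and_false, and_true, or_false]
  have hsub : SB X x1 x2 Z b1 b2 ⊆ GB X x2 Z b1 b2 :=
    SB_sub h hT hδ hx1 hx2 h12 hb1 hb2 hiso
  have c1 := GB_card hx1 hb1' hb2' hZ1
  have c2 := GB_card hx2 hb1' hb2' hZ2
  have s1 := GB_sum hx1 hb1' hb2' hZ1
  have s2 := GB_sum hx2 hb1' hb2' hZ2
  have c3 : (GB X x1 Z b1 b2).card =
      (SB X x1 x2 Z b1 b2).card + (LB X x1 x2 Z b1 b2).card := by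
    rw [hun, Finset.card_union_of_disjoint hdisj]
  have s3 : ∑ y ∈ GB X x1 Z b1 b2, dist x1 y ^ 2 =
      ∑ y ∈ SB X x1 x2 Z b1 b2, dist x1 y ^ 2 + ∑ y ∈ LB X x1 x2 Z b1 b2, dist x1 y ^ 2 := by
    rw [hun, Finset.sum_union hdisj]
  have s4 : ∑ y ∈ GB X x2 Z b1 b2 \ SB X x1 x2 Z b1 b2, dist x2 y ^ 2 +
      ∑ y ∈ SB X x1 x2 Z b1 b2, dist x2 y ^ 2 = ∑ y ∈ GB X x2 Z b1 b2, dist x2 y ^ 2 :=
    Finset.sum_sdiff hsub
  have c4 : (GB X x2 Z b1 b2 \ SB X x1 x2 Z b1 b2).card = (LB X x1 x2 Z b1 b2).card := by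
    have := Finset.card_sdiff_add_card_eq_card hsub
    omega
  -- bounds for the two remaining sums
  have u1 : ∑ y ∈ LB X x1 x2 Z b1 b2, dist x1 y ^ 2 ≤
      ((LB X x1 x2 Z b1 b2).card : ℝ) * b2 ^ 2 := by
    have := Finset.sum_le_card_nsmul (LB X x1 x2 Z b1 b2) (fun y => dist x1 y ^ 2) (b2 ^ 2)
      (fun y hy => by
        rw [mem_LB] at hy
        exact pow_le_pow_left₀ dist_nonneg hy.2.2.1.2 2)
    rwa [nsmul_eq_mul] at this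
  have u2 : ((LB X x1 x2 Z b1 b2).card : ℝ) * b1 ^ 2 ≤
      ∑ y ∈ LB X x1 x2 Z b1 b2, dist x1 y ^ 2 := by
    have := Finset.card_nsmul_le_sum (LB X x1 x2 Z b1 b2) (fun y => dist x1 y ^ 2) (b1 ^ 2)
      (fun y hy => by
        rw [mem_LB] at hy
        exact pow_le_pow_left₀ (by linarith) hy.2.2.1.1 2)
    rwa [nsmul_eq_mul] at this
  have u3 : ∑ y ∈ GB X x2 Z b1 b2 \ SB X x1 x2 Z b1 b2, dist x2 y ^ 2 ≤
      ((LB X x1 x2 Z b1 b2).card : ℝ) * b2 ^ 2 := by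
    have := Finset.sum_le_card_nsmul (GB X x2 Z b1 b2 \ SB X x1 x2 Z b1 b2)
      (fun y => dist x2 y ^ 2) (b2 ^ 2)
      (fun y hy => by
        rw [Finset.mem_sdiff, mem_GB] at hy
        exact pow_le_pow_left₀ dist_nonneg hy.1.2.2.1.2 2)
    rwa [nsmul_eq_mul, c4] at this
  have u4 : ((LB X x1 x2 Z b1 b2).card : ℝ) * b1 ^ 2 ≤
      ∑ y ∈ GB X x2 Z b1 b2 \ SB X x1 x2 Z b1 b2, dist x2 y ^ 2 := by
    have := Finset.card_nsmul_le_sum (GB X x2 Z b1 b2 \ SB X x1 x2 Z b1 b2)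
      (fun y => dist x2 y ^ 2) (b1 ^ 2)
      (fun y hy => by
        rw [Finset.mem_sdiff, mem_GB] at hy
        exact pow_le_pow_left₀ (by linarith) hy.1.2.2.1.1 2)
    rwa [nsmul_eq_mul, c4] at this
  refine ⟨?_, ?_⟩
  · have hL : (0 : ℝ) ≤ ((LB X x1 x2 Z b1 b2).card : ℝ) := Nat.cast_nonneg _
    have hq : b2 ^ 2 - b1 ^ 2 ≤ 4 * ℓ := by nlinarith
    have hq2 : ((LB X x1 x2 Z b1 b2).card : ℝ) * (b2 ^ 2 - b1 ^ 2) ≤
        4 * ℓ * ((LB X x1 x2 Z b1 b2).card : ℝ) := by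
      have := mul_le_mul_of_nonneg_left hq hL
      linarith
    have hmain : ∑ y ∈ SB X x1 x2 Z b1 b2, (dist x1 y ^ 2 - dist x2 y ^ 2) =
        ∑ y ∈ GB X x2 Z b1 b2 \ SB X x1 x2 Z b1 b2, dist x2 y ^ 2 -
          ∑ y ∈ LB X x1 x2 Z b1 b2, dist x1 y ^ 2 := by
      rw [Finset.sum_sub_distrib]
      linarith
    rw [hmain, abs_le]
    constructor
    · linarith
    · linarith
  · rw [← c1, c3, Nat.cast_add]

end Pool.Agent.Vpw
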