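import Pool.Agent.Lib.Vpt.ZB

/-!
# Separated good distances (MP_733c86_co)
-/

set_option autoImplicit false

open Finset Pool.Agent.Vps Pool.Agent.Vpt
open scoped ComplexConjugate

namespace Pool.Agent.Vpw

open Classical in
/-- Separated distances, none in `ZB X x`. PROOF. For `f ∈ F` there is `z ∈ X`,
`dist x z = f` (`fine_of_notMem`, `Fine`); all `y ∈ Q` have `dist y z ∈ [f - δ, f + δ]`, a distance of
`X` (`y ≠ z`), and at most two `y` have the same (`valid` at `z`): `Dset X` has at least `card Q / 2`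
elements in `[f - δ, f + δ]`. An element of `Dset X` is in at most two of these intervals for different
`f ∈ F` (three numbers of an interval of length `2 δ` are not pairwise more than `δ` apart). So
`card F * card Q / 2 ≤ 2 card (Dset X) ≤ 2 card X` (`defect`). (The part `F1` of `Vpt.separated`.) -/
theorem separated2 {X : Finset ℂ} {e : ℝ} (h : Sys X e) (he : e ≤ X.card) {x : ℂ} (hx : x ∈ X)
    {Q : Finset ℂ} (hQ : Q ⊆ X) (hQ0 : Q.Nonempty) {δ : ℝ} (hδ : δ ≤ 1 / 10)
    (hQx : ∀ y ∈ Q, dist y x ≤ δ) {F : Finset ℝ} (hF : F ⊆ Dset X \ ZB X x)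
    (hF1 : ∀ f ∈ F, 3 / 10 ≤ f ∧ f ≤ 19 / 10)
    (hF2 : ∀ f ∈ F, ∀ f' ∈ F, f ≠ f' → δ < |f - f'|) :
    (F.card : ℝ) ≤ 4 * X.card / Q.card := by
  have hz : ∀ f ∈ F, ∃ z ∈ X, dist x z = f := by
    intro f hf
    obtain ⟨hf1, hf2⟩ := Finset.mem_sdiff.1 (hF hf)
    have h1 : Fine X x f := fine_of_notMem (x := x) hf1 hf2
    obtain ⟨z, hz⟩ := Finset.card_pos.1 (Nat.zero_lt_one.trans h1.1)
    obtain ⟨hz1, hz2⟩ := Finset.mem_filter.1 hz
    exact ⟨z, hz1, hz2⟩
  choose! z hzX hzd using hz
  have hne : ∀ f ∈ F, ∀ y ∈ Q, y ≠ z f := by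
    intro f hf y hy hyz
    have h1 := hQx y hy
    have h2 := hzd f hf
    have h3 := (hF1 f hf).1
    rw [← hyz, dist_comm] at h2
    linarith
  have hclose : ∀ f ∈ F, ∀ y ∈ Q, |dist y (z f) - f| ≤ δ := by
    intro f hf y hy
    have h1 := abs_dist_sub_le y x (z f)
    rw [hzd f hf] at h1
    exact h1.trans (hQx y hy)
  have key : (F ×ˢ Q).card ≤ 4 * (Dset X).card := by
    refine Finset.card_le_mul_card_image_of_maps_to (f := fun p : ℝ × ℂ => dist p.2 (z p.1))
      ?_ 4 ?_
    · rintro ⟨f, y⟩ hp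
      obtain ⟨hf, hy⟩ := Finset.mem_product.1 hp
      exact dist_mem_Dset (hQ hy) (hzX f hf) (hne f hf y hy)
    · intro d _
      have hA : (F.filter fun f => |d - f| ≤ δ).card ≤ 2 := by
        by_contra hcon
        obtain ⟨a, ha, b, hb, c, hc, hab, hac, hbc⟩ := Finset.two_lt_card.1 (not_le.1 hcon)
        simp only [Finset.mem_filter] at ha hb hc
        have h1 := hF2 a ha.1 b hb.1 hab
        have h2 := hF2 a ha.1 c hc.1 hac
        have h3 := hF2 b hb.1 c hc.1 hbc
        have h4 := abs_le.1 ha.2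
        have h5 := abs_le.1 hb.2
        have h6 := abs_le.1 hc.2
        rcases lt_abs.1 h1 with h1 | h1 <;> rcases lt_abs.1 h2 with h2 | h2 <;>
          rcases lt_abs.1 h3 with h3 | h3 <;> linarith [h4.1, h4.2, h5.1, h5.2, h6.1, h6.2]
      have hB : ((F ×ˢ Q).filter fun p : ℝ × ℂ => dist p.2 (z p.1) = d).card ≤
          2 * (F.filter fun f => |d - f| ≤ δ).card := by
        refine Finset.card_le_mul_card_image_of_maps_to (f := fun p : ℝ × ℂ => p.1) ?_ 2 ?_
        · rintro ⟨f, y⟩ hp
          obtain ⟨hp1, hp2⟩ := Finset.mem_filter.1 hp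
          obtain ⟨hf, hy⟩ := Finset.mem_product.1 hp1
          have h1 := hclose f hf y hy
          simp only at hp2
          rw [hp2] at h1
          exact Finset.mem_filter.2 ⟨hf, h1⟩
        · intro f hf
          have hfF := (Finset.mem_filter.1 hf).1
          refine le_trans ?_ (h.valid (z f) (hzX f hfF) d)
          refine Finset.card_le_card_of_injOn (fun p : ℝ × ℂ => p.2) ?_ ?_
          · rintro ⟨f', y⟩ hp
            have hp' := Finset.mem_coe.1 hp
            obtain ⟨hp1, hp2⟩ := Finset.mem_filter.1 hp'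
            obtain ⟨hp3, hp4⟩ := Finset.mem_filter.1 hp1
            obtain ⟨hf', hy⟩ := Finset.mem_product.1 hp3
            simp only at hp2 hp4
            subst hp2
            refine Finset.mem_coe.2 (Finset.mem_filter.2 ⟨hQ hy, hne _ hf' y hy, ?_⟩)
            rw [dist_comm]
            exact hp4
          · rintro ⟨f1, y1⟩ h1 ⟨f2, y2⟩ h2 h12
            have h1' := (Finset.mem_filter.1 (Finset.mem_coe.1 h1)).2
            have h2' := (Finset.mem_filter.1 (Finset.mem_coe.1 h2)).2
            simp only at h1' h2' h12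
            rw [h1', h2', h12]
      omega
  have hD : ((Dset X).card : ℝ) ≤ X.card := by
    have := h.defect
    linarith
  have hQpos : (0 : ℝ) < Q.card := by exact_mod_cast Finset.card_pos.2 hQ0
  rw [le_div_iff₀ hQpos]
  have h2 : ((F ×ˢ Q).card : ℝ) ≤ 4 * (Dset X).card := by exact_mod_cast key
  rw [Finset.card_product] at h2
  push_cast at h2
  linarith

end Pool.Agent.Vpw
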