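import Pool.Agent.Lib.Vpw.Twin2
import Pool.Agent.Lib.Vpw.Separated2
import Pool.Agent.Lib.Vpt.LongCount
import Pool.Agent.Lib.Vpt.Window

/-!
# No heavy clusters (MP_733c86_co)
-/

set_option autoImplicit false

open Finset Pool.Agent.Vps Pool.Agent.Vpt
open scoped ComplexConjugate

namespace Pool.Agent.Vpw

open Classical in
theorem cluster2_blocks {D : Finset ℝ} {δ ℓ A A' c m N s : ℝ}
    (hδ : 0 < δ) (hδℓ : 8 * δ ≤ ℓ) (hAA : A ≤ A')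
    (hm : ∀ F ⊆ D, (∀ f ∈ F, A ≤ f ∧ f ≤ A') →
      (∀ f ∈ F, ∀ f' ∈ F, f ≠ f' → δ < |f - f'|) → (F.card : ℝ) ≤ m)
    (hN : ∀ a, A - 4 * ℓ ≤ a → a + 8 * ℓ ≤ A' + 4 * ℓ →
      ((D.filter fun d => a ≤ d ∧ d ≤ a + 8 * ℓ).card : ℝ) ≤ N)
    (hc1 : A + ℓ ≤ c - 8 / 100) (hc2 : c + 8 / 100 ≤ A' - ℓ)
    (hs : s ≤ ((D.filter fun d => c - 8 / 100 ≤ d ∧ d ≤ c + 8 / 100).card : ℝ)) :
    ∃ J : Finset (ℝ × ℝ), Blocks D δ ℓ A A' J ∧
      s - 8 * δ * m / ℓ * N ≤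
        ((D.filter fun d => ∃ p ∈ J, p.1 ≤ d ∧ d ≤ p.2).card : ℝ) := by
  obtain ⟨J, hJ, hJ2⟩ := exists_blocks (D := D) (A := A) (A' := A') hδ hδℓ
  refine ⟨J, hJ, ?_⟩
  have hL := long_count (D := D) hδ hδℓ hAA hm hN
  have hsub : (D.filter fun d => c - 8 / 100 ≤ d ∧ d ≤ c + 8 / 100) ⊆
      (D.filter fun d => A + ℓ ≤ d ∧ d ≤ A' - ℓ ∧ LongAt D δ ℓ d) ∪
        (D.filter fun d => ∃ p ∈ J, p.1 ≤ d ∧ d ≤ p.2) := by
    intro d hd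
    obtain ⟨hdD, h1, h2⟩ := Finset.mem_filter.1 hd
    rcases hJ2 d hdD (by linarith) (by linarith) with h3 | h3
    · exact Finset.mem_union_left _ (Finset.mem_filter.2 ⟨hdD, by linarith, by linarith, h3⟩)
    · exact Finset.mem_union_right _ (Finset.mem_filter.2 ⟨hdD, h3⟩)
  have hc := (Finset.card_le_card hsub).trans (Finset.card_union_le _ _)
  have hc' : ((D.filter fun d => c - 8 / 100 ≤ d ∧ d ≤ c + 8 / 100).card : ℝ) ≤
      ((D.filter fun d => A + ℓ ≤ d ∧ d ≤ A' - ℓ ∧ LongAt D δ ℓ d).card : ℝ) +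
        ((D.filter fun d => ∃ p ∈ J, p.1 ≤ d ∧ d ≤ p.2).card : ℝ) := by
    exact_mod_cast hc
  linarith

open Classical in
theorem cluster2_sdiff {D Z : Finset ℝ} {c s z : ℝ} (hz : (Z.card : ℝ) ≤ z)
    (hs : s ≤ ((D.filter fun d => c - 8 / 100 ≤ d ∧ d ≤ c + 8 / 100).card : ℝ)) :
    s - z ≤ (((D \ Z).filter fun d => c - 8 / 100 ≤ d ∧ d ≤ c + 8 / 100).card : ℝ) := by
  have hsub : (D.filter fun d => c - 8 / 100 ≤ d ∧ d ≤ c + 8 / 100) ⊆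
      ((D \ Z).filter fun d => c - 8 / 100 ≤ d ∧ d ≤ c + 8 / 100) ∪ Z := by
    intro d hd
    obtain ⟨hdD, h1⟩ := Finset.mem_filter.1 hd
    by_cases hdZ : d ∈ Z
    · exact Finset.mem_union_right _ hdZ
    · exact Finset.mem_union_left _
        (Finset.mem_filter.2 ⟨Finset.mem_sdiff.2 ⟨hdD, hdZ⟩, h1⟩)
  have hc := (Finset.card_le_card hsub).trans (Finset.card_union_le _ _)
  have hc' : ((D.filter fun d => c - 8 / 100 ≤ d ∧ d ≤ c + 8 / 100).card : ℝ) ≤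
      (((D \ Z).filter fun d => c - 8 / 100 ≤ d ∧ d ≤ c + 8 / 100).card : ℝ) + (Z.card : ℝ) := by
    exact_mod_cast hc
  linarith

/-- No heavy cluster of typical points. Write `n = card X`, `E = e + 1`, `τ = E / n ≤ 10 ^ (-40)`.
PROOF. Let `x1, x2 ∈ Q` with `δ = dist x1 x2` maximal, `0 < δ ≤ 2 * 10 ^ 12 τ ^ 2`,
`Z = ZB X x1 ∪ ZB X x2`, `card Z ≤ 2 e + 2 * 10 ^ 14 E ≤ 4 * 10 ^ 14 E`, `D' = Dset X \ Z`,
`ℓ = δ / (10 ^ 23 τ)` (so `ℓ ≤ 2 τ / 10 ^ 11`, `8 δ ≤ ℓ`, `8 ℓ ≤ g / 40` for `g = 2 * 10 ^ 12 τ`).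
For both windows (`A, A' = 6/10, 8/10` and `12/10, 14/10`) `exists_blocks (D := D')`, and
`long_count (D := D')` with `m = 4 n / card Q` (`separated2` with `x = x1`, `D' ⊆ Dset X \ ZB X x1`),
`N = 2 n g + e + card (ZB X x1) ≤ 3 * 10 ^ 14 E` (`window`, `D' ⊆ Dset X`): the number of `LongAt`
elements is at most `8 δ m N / ℓ = 8 * 10 ^ 23 τ m N ≤ 24 * 10 ^ 37 τ E (4 n / card Q)`
`= 96 * 10 ^ 37 E ^ 2 / card Q ≤ n / 10 ^ 4` by `hκ`. With `many_dist` (and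
`card Z ≤ 4 * 10 ^ 14 E ≤ n / 10 ^ 20`) the blocks contain at least
`n / 500 - card Z - n / 10 ^ 4 ≥ n / 1000 + 2 card Z` elements of `D'`; `twin2` with
`m = n / 1000`: `10 ^ 4 ℓ card Z ≤ δ n / 1000`, i.e. `10 ^ 7 * 4 * 10 ^ 14 E ≤ 10 ^ 23 τ n`. -/
theorem cluster2 {X : Finset ℂ} {e : ℝ} (h : Ann X e (5 * e / X.card))
    (hn : 10 ^ 40 * (e + 1) ≤ X.card) {Q : Finset ℂ} (hQ : Q ⊆ X)
    (hQ2 : 2 ≤ Q.card) (hcoin : ∀ x ∈ Q, ((coin X x).card : ℝ) ≤ 10 ^ 14 * (e + 1))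
    (hdiam : ∀ x ∈ Q, ∀ x' ∈ Q, dist x x' ≤ 2 * 10 ^ 12 * ((e + 1) / X.card) ^ 2)
    (hκ : 10 ^ 44 * (e + 1) ^ 2 ≤ X.card * Q.card) : False := by
  classical
  have hn40 := hn
  have he : 0 ≤ e := h.nonneg
  have hQne : Q.Nonempty := Finset.card_pos.1 (by omega)
  have hn : (0 : ℝ) < X.card := by
    exact_mod_cast Finset.card_pos.2 (hQne.mono hQ)
  have hq : (0 : ℝ) < Q.card := by exact_mod_cast Finset.card_pos.2 hQne
  have hbig := hn40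
  -- the two points of `Q` at maximal distance
  obtain ⟨p, hp, hpmax⟩ := Finset.exists_max_image (Q ×ˢ Q) (fun p => dist p.1 p.2)
    (hQne.product hQne)
  obtain ⟨x1, x2⟩ := p
  obtain ⟨hx1Q, hx2Q⟩ := Finset.mem_product.1 hp
  simp only at hx1Q hx2Q
  have hx1 := hQ hx1Q
  have hx2 := hQ hx2Q
  have hmax : ∀ y ∈ Q, ∀ y' ∈ Q, dist y y' ≤ dist x1 x2 := fun y hy y' hy' =>
    hpmax (y, y') (Finset.mem_product.2 ⟨hy, hy'⟩)
  have hδ0 : 0 < dist x1 x2 := by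
    obtain ⟨a, ha, b, hb, hab⟩ := Finset.one_lt_card.1 (by omega : 1 < Q.card)
    exact (dist_pos.2 hab).trans_le (hmax a ha b hb)
  have hδ1 := hdiam x1 hx1Q x2 hx2Q
  obtain ⟨δ, hδd⟩ : ∃ δ, δ = dist x1 x2 := ⟨_, rfl⟩
  rw [← hδd] at hδ0 hδ1
  obtain ⟨n, hnd⟩ : ∃ n : ℝ, n = X.card := ⟨_, rfl⟩
  obtain ⟨q, hqd⟩ : ∃ q : ℝ, q = Q.card := ⟨_, rfl⟩
  obtain ⟨E, hEd⟩ : ∃ E : ℝ, E = e + 1 := ⟨_, rfl⟩
  rw [← hnd, ← hEd] at hδ1 hbig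
  rw [← hnd, ← hEd, ← hqd] at hκ
  rw [← hnd] at hn h
  rw [← hqd] at hq
  have hE1 : 1 ≤ E := by linarith
  have hE0 : 0 < E := by linarith
  obtain ⟨τ, hτd⟩ : ∃ τ : ℝ, τ = E / n := ⟨_, rfl⟩
  have hτn : τ * n = E := by rw [hτd]; field_simp
  have hτ0 : 0 < τ := by rw [hτd]; positivity
  have hτ1 : τ ≤ 1 / 10 ^ 40 := by
    rw [hτd, div_le_div_iff₀ hn (by positivity)]; linarith
  rw [← hτd] at hδ1
  obtain ⟨ℓ, hℓd⟩ : ∃ ℓ : ℝ, ℓ = δ / (10 ^ 23 * τ) := ⟨_, rfl⟩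
  have hℓ0 : 0 < ℓ := by rw [hℓd]; positivity
  have hℓδ : ℓ * (10 ^ 23 * τ) = δ := by rw [hℓd]; field_simp
  have hδℓ : 8 * δ ≤ ℓ := by
    rw [← hℓδ]
    nlinarith
  have hℓ1 : ℓ ≤ 2 * τ / 10 ^ 11 := by
    rw [hℓd, div_le_iff₀ (by positivity)]
    nlinarith
  obtain ⟨g, hgd⟩ : ∃ g : ℝ, g = 2 * 10 ^ 12 * τ := ⟨_, rfl⟩
  have hg0 : 0 < g := by rw [hgd]; positivity
  have hg1 : g ≤ 1 / 10 ^ 8 := by rw [hgd]; norm_num at hτ1 ⊢; linarith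
  have hTg : 5 * e / n ≤ g / 10 ^ 11 := by
    rw [hgd, hτd, div_le_div_iff₀ hn (by positivity)]
    have : E / n * n = E := by field_simp
    nlinarith
  have hng : n * g = 2 * 10 ^ 12 * E := by rw [hgd, ← hτn]; ring
  have hng' : 2 * 10 ^ 12 * (e + 1) ≤ (X.card : ℝ) * g := by
    rw [← hnd, hng, hEd]
  have hT6 : 5 * e / n ≤ 1 / 10 ^ 6 := by
    refine hTg.trans ?_
    norm_num at hg1 ⊢
    linarith
  have hδsmall : δ ≤ 1 / 10 ^ 6 := by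
    have h1 : τ ^ 2 ≤ 1 / 10 ^ 40 * (1 / 10 ^ 40) := by
      rw [sq]; exact mul_le_mul hτ1 hτ1 hτ0.le (by positivity)
    refine hδ1.trans ?_
    norm_num at h1 ⊢
    linarith
  -- the exceptional distances
  have hZ1 : ((ZB X x1).card : ℝ) ≤ e + 10 ^ 14 * E := by
    have := card_ZB h.toSys hx1
    have h2 := hcoin x1 hx1Q
    rw [← hEd] at h2
    linarith
  have hZ2 : ((ZB X x2).card : ℝ) ≤ e + 10 ^ 14 * E := by
    have := card_ZB h.toSys hx2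
    have h2 := hcoin x2 hx2Q
    rw [← hEd] at h2
    linarith
  have hZ : (((ZB X x1 ∪ ZB X x2 : Finset ℝ)).card : ℝ) ≤ 4 * 10 ^ 14 * E := by
    have h1 : (((ZB X x1 ∪ ZB X x2 : Finset ℝ)).card : ℝ) ≤
        ((ZB X x1).card : ℝ) + ((ZB X x2).card : ℝ) := by
      exact_mod_cast Finset.card_union_le _ _
    linarith
  obtain ⟨Z, hZd⟩ : ∃ Z : Finset ℝ, Z = ZB X x1 ∪ ZB X x2 := ⟨_, rfl⟩
  rw [← hZd] at hZ
  -- separated distances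
  have hm : ∀ A A' : ℝ, 3 / 10 ≤ A → A' ≤ 19 / 10 → ∀ F ⊆ Dset X \ Z,
      (∀ f ∈ F, A ≤ f ∧ f ≤ A') → (∀ f ∈ F, ∀ f' ∈ F, f ≠ f' → δ < |f - f'|) →
      (F.card : ℝ) ≤ 4 * n / q := by
    intro A A' hA hA' F hF hF1 hF2
    have hen : e ≤ X.card := by rw [← hnd]; linarith
    have hF' : F ⊆ Dset X \ ZB X x1 := by
      intro f hf
      have h1 := Finset.mem_sdiff.1 (hF hf)
      refine Finset.mem_sdiff.2 ⟨h1.1, fun h2 => h1.2 ?_⟩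
      rw [hZd]
      exact Finset.mem_union_left _ h2
    have := separated2 h.toSys hen hx1 hQ hQne (δ := δ) (by linarith)
      (fun y hy => by rw [hδd]; exact hmax y hy x1 hx1Q) hF'
      (fun f hf => ⟨by linarith [(hF1 f hf).1], by linarith [(hF1 f hf).2]⟩) hF2
    rw [← hnd, ← hqd] at this
    exact this
  -- few distances in a short window
  have hN : ∀ A A' : ℝ, 6 / 10 ≤ A → A' ≤ 14 / 10 → ∀ a, A - 4 * ℓ ≤ a →
      a + 8 * ℓ ≤ A' + 4 * ℓ →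
      (((Dset X \ Z).filter fun d => a ≤ d ∧ d ≤ a + 8 * ℓ).card : ℝ) ≤ 3 * 10 ^ 14 * E := by
    intro A A' hA hA' a ha ha'
    have hℓs : ℓ ≤ 1 / 10 ^ 6 := by
      norm_num at hℓ1 hτ1 ⊢
      linarith
    have := window h (g := g) hg0 hg1 hTg hng' hx1 (a := a) (r := 8 * ℓ)
      (by linarith) (by linarith) (by positivity)
      (by rw [hgd]; linarith)
    rw [← hnd] at this
    have hsub : (((Dset X \ Z).filter fun d => a ≤ d ∧ d ≤ a + 8 * ℓ).card : ℝ) ≤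
        (((Dset X).filter fun d => a ≤ d ∧ d ≤ a + 8 * ℓ).card : ℝ) := by
      exact_mod_cast Finset.card_le_card
        (Finset.filter_subset_filter _ Finset.sdiff_subset)
    linarith
  -- the bound for the long elements
  have hlong : 8 * δ * (4 * n / q) / ℓ * (3 * 10 ^ 14 * E) ≤ n / 10 ^ 4 := by
    have h1 : 8 * δ * (4 * n / q) / ℓ * (3 * 10 ^ 14 * E) =
        96 * 10 ^ 37 * (E ^ 2 / q) := by
      rw [← hℓδ, hτd]
      field_simp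
      ring
    rw [h1]
    have h2 : E ^ 2 / q ≤ n / 10 ^ 44 := by
      rw [div_le_div_iff₀ hq (by positivity)]; linarith
    norm_num at h2 ⊢
    linarith
  -- the blocks
  have hs1 := many_dist h (g := g) hg0 hg1 hTg hng' (c := 7 / 10) (Or.inl rfl)
  have hs2 := many_dist h (g := g) hg0 hg1 hTg hng' (c := 13 / 10) (Or.inr rfl)
  rw [← hnd] at hs1 hs2
  have hs1' := cluster2_sdiff hZ hs1
  have hs2' := cluster2_sdiff hZ hs2
  have hZn : 4 * 10 ^ 14 * E ≤ n / 10 ^ 20 := by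
    rw [le_div_iff₀ (by positivity)]
    linarith
  have hℓs : ℓ ≤ 1 / 1000 := by
    norm_num at hℓ1 hτ1 ⊢
    linarith
  obtain ⟨J1, hJ1, hJ1c⟩ := cluster2_blocks (D := Dset X \ Z) (A := 6 / 10) (A' := 8 / 10)
    (c := 7 / 10) hδ0 hδℓ
    (by norm_num) (hm (6 / 10) (8 / 10) (by norm_num) (by norm_num))
    (hN (6 / 10) (8 / 10) (by norm_num) (by norm_num)) (by linarith) (by linarith) hs1'
  obtain ⟨J2, hJ2, hJ2c⟩ := cluster2_blocks (D := Dset X \ Z) (A := 12 / 10) (A' := 14 / 10)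
    (c := 13 / 10) hδ0 hδℓ (by norm_num) (hm (12 / 10) (14 / 10) (by norm_num) (by norm_num))
    (hN (12 / 10) (14 / 10) (by norm_num) (by norm_num)) (by linarith) (by linarith) hs2'
  refine twin2 h hT6 (δ := δ) (ℓ := ℓ) (m := n / 1000) hδ0 hδsmall hx1 hx2 hδd.symm
    (Z := Z) ?_ hJ1 hJ2 (by positivity) ?_ ?_ ?_
  · intro d hd _ _ hdZ
    rw [hZd, Finset.mem_union, not_or] at hdZ
    exact ⟨fine_of_notMem hd hdZ.1, fine_of_notMem hd hdZ.2⟩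
  · linarith
  · linarith
  · have h1 : ℓ * (Z.card : ℝ) ≤ ℓ * (4 * 10 ^ 14 * E) :=
      mul_le_mul_of_nonneg_left hZ hℓ0.le
    have h2 : ℓ * (4 * 10 ^ 14 * E) = 4 / 10 ^ 9 * (δ * n) := by
      rw [← hℓδ, ← hτn]; ring
    have h3 : 0 < δ * n := by positivity
    have h4 : δ * (n / 1000) = δ * n / 1000 := by ring
    rw [h4]
    norm_num at h1 h2 ⊢
    linarith

end Pool.Agent.Vpw
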