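import Pool.Agent.Lib.Vpw.Main
import Pool.Agent.Lib.Vpd.Final
import Pool.Agent.Lib.Vps.FinalA

/-!
# The result, linear form (MP_733c86_co)
-/

set_option autoImplicit false

open Finset Pool.Agent.Vps Pool.Agent.Vpd
open scoped ComplexConjugate

namespace Pool.Agent.Vpw

theorem main :
    ∃ c : ℝ, 0 < c ∧ ∀ n : ℕ, ∀ x : Fin n → EuclideanSpace ℝ (Fin 2),
        Function.Injective x →
        (∀ i j k : Fin n, i ≠ j → i ≠ k → j ≠ k →
          ¬ Collinear ℝ ({x i, x j, x k} : Set (EuclideanSpace ℝ (Fin 2)))) →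
        (∀ i j k l : Fin n, i ≠ j → i ≠ k → i ≠ l → j ≠ k → j ≠ l → k ≠ l →
          ¬ EuclideanGeometry.Cospherical
              ({x i, x j, x k, x l} : Set (EuclideanSpace ℝ (Fin 2)))) →
        (∀ i : Fin n, ∀ r : ℝ,
          (Finset.univ.filter (fun j : Fin n => j ≠ i ∧ dist (x i) (x j) = r)).card ≤ 2) →
        ∀ S : Finset (Fin n),
          (ConvexIndependent ℝ (fun i : S => x i) ∨
            ∃ u : EuclideanSpace ℝ (Fin 2), ‖u‖ = 1 ∧
              ∀ i ∈ S, ∀ j ∈ S, 19 / 20 * dist (x i) (x j) ≤ |inner ℝ (x j - x i) u|) →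
          (n : ℝ) / 2 + c * S.card - 1 ≤
            (((Finset.univ.filter (fun p : Fin n × Fin n => p.1 ≠ p.2)).image
              (fun p : Fin n × Fin n => dist (x p.1) (x p.2))).card : ℝ) := by
  obtain ⟨c', hc'0, N, hN⟩ := finalA
  set c : ℝ := min (1 / 10 ^ 67) (min (c' / (2 * 10 ^ 9)) (1 / (2 * (N + 1)))) with hc
  have hc0 : 0 < c := by
    rw [hc]
    refine lt_min (by positivity) (lt_min (by positivity) (by positivity))
  have hcA : c ≤ 1 / 10 ^ 67 := min_le_left _ _
  have hcB : c ≤ c' / (2 * 10 ^ 9) := (min_le_right _ _).trans (min_le_left _ _)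
  have hcC : c ≤ 1 / (2 * (N + 1)) := (min_le_right _ _).trans (min_le_right _ _)
  refine ⟨c, hc0, ?_⟩
  intro n x hx hcol hcirc hvalid S hcase
  set D := (((Finset.univ.filter (fun p : Fin n × Fin n => p.1 ≠ p.2)).image
            (fun p : Fin n × Fin n => dist (x p.1) (x p.2))).card : ℝ) with hD
  have hD0 : 0 ≤ D := Nat.cast_nonneg _
  have hSn : S.card ≤ n := (Finset.card_le_univ S).trans (by simp)
  have hSnR : (S.card : ℝ) ≤ n := by exact_mod_cast hSn
  have hS0R : (0 : ℝ) ≤ S.card := Nat.cast_nonneg _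
  rcases Nat.lt_or_ge n 2 with hn2 | hn2
  · have h1 : (n : ℝ) ≤ 1 := by exact_mod_cast (by omega : n ≤ 1)
    have h2 : c * S.card ≤ 1 / 10 ^ 67 * 1 := mul_le_mul hcA (hSnR.trans h1) hS0R (by positivity)
    linarith
  have hnpos : (0 : ℝ) < n := by exact_mod_cast (by omega : 0 < n)
  by_contra hlt
  push Not at hlt
  obtain ⟨f0, ρ, hρ, hf0, h00, h01⟩ := exists_similarity hn2 x hx
  have hinj0 : Function.Injective (fun i => f0 (x i)) := fun i j hij => hx (f0.injective hij)
  have hsys0 := sys_of (le_trans (by norm_num) hn2) hx f0 hρ hf0 hvalid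
  rw [← hD] at hsys0
  set e := 2 * D - (n - 1) with he
  have he0 : 0 ≤ e := hsys0.nonneg
  have he1 : e + 1 < 2 * (c * S.card) := by
    rw [he]; linarith
  have hnN : N ≤ n := by
    by_contra hcon
    push Not at hcon
    have h1 : (S.card : ℝ) ≤ N + 1 := by
      have : (n : ℝ) ≤ N := by exact_mod_cast hcon.le
      linarith
    have h2 : c * S.card ≤ 1 / (2 * (N + 1)) * (N + 1) :=
      mul_le_mul hcC h1 hS0R (by positivity)
    have h3 : (1 : ℝ) / (2 * (N + 1)) * (N + 1) = 1 / 2 := by field_simp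
    linarith
  have hsqrt := hN n hnN x hx hcol hcirc hvalid
  rw [← hD] at hsqrt
  have hmbig : 2 * 10 ^ 9 * Real.sqrt n ≤ S.card := by
    by_contra hcon
    push Not at hcon
    have h1 : c * S.card ≤ c' / (2 * 10 ^ 9) * (2 * 10 ^ 9 * Real.sqrt n) :=
      mul_le_mul hcB hcon.le hS0R (by positivity)
    have h2 : c' / (2 * 10 ^ 9) * (2 * 10 ^ 9 * Real.sqrt n) = c' * Real.sqrt n := by ring
    linarith
  have hm2 : 4 * 10 ^ 18 * (n : ℝ) ≤ (S.card : ℝ) ^ 2 := by
    have h1 : (2 * 10 ^ 9 * Real.sqrt n) ^ 2 ≤ (S.card : ℝ) ^ 2 :=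
      pow_le_pow_left₀ (by positivity) hmbig 2
    have h2 : (2 * 10 ^ 9 * Real.sqrt n) ^ 2 = 4 * 10 ^ 18 * (n : ℝ) := by
      rw [mul_pow, Real.sq_sqrt hnpos.le]; ring
    linarith
  have hem : 10 ^ 66 * (e + 1) ≤ S.card := by
    have h1 : c * S.card ≤ 1 / 10 ^ 67 * S.card := mul_le_mul_of_nonneg_right hcA hS0R
    linarith
  have hSpos : (0 : ℝ) < S.card := by linarith
  -- the arc
  have hcard0 : (univ.image fun i => f0 (x i)).card = n := by
    rw [Finset.card_image_of_injective _ hinj0]; simp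
  have hen : 10 ^ 66 * (e + 1) ≤ n := hem.trans hSnR
  have hne0 : (univ.image fun i => f0 (x i)).Nonempty := by
    rw [← Finset.card_pos, hcard0]; omega
  have hA0 := annulus hsys0 hne0 (by
      rw [Finset.sum_image (fun a _ b _ hab => hinj0 hab)]; exact h00) (by
      rw [Finset.sum_image (fun a _ b _ hab => hinj0 hab), h01, hcard0]) (by
      rw [hcard0]; linarith)
  have hT : 5 * e / ((univ.image fun i => f0 (x i)).card : ℝ) ≤ 1 / 1000 := by
    rw [hcard0, div_le_div_iff₀ hnpos (by norm_num)]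
    linarith
  set S0 := S.image (fun i => f0 (x i)) with hS0
  have hS0card : S0.card = S.card := Finset.card_image_of_injective _ hinj0
  obtain ⟨u, hu, harc⟩ := exists_arc (S := S0) (by
    intro y hy
    have hyX : y ∈ univ.image (fun i => f0 (x i)) := by
      rw [hS0, Finset.mem_image] at hy
      obtain ⟨i, _, rfl⟩ := hy
      exact Finset.mem_image_of_mem _ (Finset.mem_univ _)
    have h2 := (hA0.ann y hyX).trans hT
    have h0 := norm_nonneg y
    have h4 : |‖y‖ - 1| ≤ |‖y‖ ^ 2 - 1| := by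
      have : ‖y‖ ^ 2 - 1 = (‖y‖ - 1) * (‖y‖ + 1) := by ring
      rw [this, abs_mul]
      have h5 : 1 ≤ |‖y‖ + 1| := by rw [abs_of_nonneg (by linarith)]; linarith
      exact le_mul_of_one_le_right (abs_nonneg _) h5
    exact h4.trans h2)
  obtain ⟨f, hf, hfu⟩ := exists_rot f0 hf0 hu
  have hinj : Function.Injective (fun i => f (x i)) := fun i j hij => hx (f.injective hij)
  have hcard : (univ.image fun i => f (x i)).card = n := by
    rw [Finset.card_image_of_injective _ hinj]; simp
  have hsys := sys_of (le_trans (by norm_num) hn2) hx f hρ hf hvalid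
  rw [← hD, ← he] at hsys
  set S1 := S.filter (fun i => dist (f (x i)) 1 ≤ 1 / 100) with hS1
  have hdist : ∀ i, dist (f (x i)) 1 = dist (f0 (x i)) u := by
    intro i
    rw [hfu]
    have h1 : (1 : ℂ) = conj u * u := by
      rw [mul_comm, Complex.mul_conj, Complex.normSq_eq_norm_sq, hu]; simp
    rw [h1, dist_eq_norm, ← mul_sub, norm_mul, Complex.norm_conj, hu, one_mul, ← dist_eq_norm]
  have hS1card : ((S0.filter fun y => dist y u ≤ 1 / 100).card : ℝ) = S1.card := by
    rw [hS0, Finset.filter_image, Finset.card_image_of_injective _ hinj0, hS1]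
    simp only [hdist]
  have hS1img : (S1.image fun i => f (x i)).card = S1.card :=
    Finset.card_image_of_injective _ hinj
  have hsub : (S1.image fun i => f (x i)) ⊆ (univ.image fun i => f (x i)) :=
    Finset.image_subset_image (Finset.subset_univ _)
  have hS1m : (S.card : ℝ) / 170000 ≤ S1.card := by
    rw [← hS1card]
    refine le_trans (le_of_eq ?_) harc
    rw [hS0card]
  refine mainE (X := univ.image fun i => f (x i)) (S := S1.image fun i => f (x i))
    hsys ?_ ?_ (noCol_of hx f hcol) (noCirc_of hx f hρ hf hcirc) hsub ?_ ?_ ?_ ?_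
  · rw [Finset.sum_image (fun a _ b _ hab => hinj hab)]
    simp only [hfu]
    rw [← Finset.mul_sum, h00, mul_zero]
  · rw [Finset.sum_image (fun a _ b _ hab => hinj hab), hcard, ← h01]
    refine Finset.sum_congr rfl fun i _ => ?_
    rw [hfu, norm_mul, Complex.norm_conj, hu, one_mul]
  · rcases hcase with hcv | ⟨v, hv, hvS⟩
    · left
      refine conv_of hx f S1 ?_
      exact hcv.comp_embedding ⟨fun i : S1 => (⟨i.1, (Finset.mem_filter.1 i.2).1⟩ : S),
        fun a b hab => Subtype.ext (congrArg (fun t : S => t.1) hab)⟩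
    · right
      obtain ⟨w, hw, hwf⟩ := flat_of f hρ hf hv
      refine ⟨w, hw, ?_⟩
      intro p hp q hq
      rw [Finset.mem_image] at hp hq
      obtain ⟨i, hi, rfl⟩ := hp
      obtain ⟨j, hj, rfl⟩ := hq
      rw [hwf, hf, abs_mul, abs_of_pos hρ]
      have h1 := hvS i (Finset.mem_filter.1 hi).1 j (Finset.mem_filter.1 hj).1
      calc 19 / 20 * (ρ * dist (x i) (x j)) = ρ * (19 / 20 * dist (x i) (x j)) := by ring
        _ ≤ _ := mul_le_mul_of_nonneg_left h1 hρ.le
  · intro y hy
    rw [Finset.mem_image] at hy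
    obtain ⟨i, hi, rfl⟩ := hy
    exact (Finset.mem_filter.1 hi).2
  · rw [hS1img]
    refine le_trans ?_ hS1m
    rw [le_div_iff₀ (by norm_num)]
    linarith
  · rw [hcard, hS1img]
    have h1 : ((S.card : ℝ) / 170000) ^ 2 ≤ (S1.card : ℝ) ^ 2 :=
      pow_le_pow_left₀ (by positivity) hS1m 2
    refine le_trans ?_ h1
    rw [div_pow, le_div_iff₀ (by norm_num)]
    linarith

end Pool.Agent.Vpw
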