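import Pool.Agent.Lib.Vpd.Main
import Pool.Agent.Lib.Vpt.InvClose
import Pool.Agent.Lib.Vpw.Pairs2

/-!
# The linear form for sets of complex numbers (MP_733c86_co)
-/

set_option autoImplicit false

open Finset Pool.Agent.Vps Pool.Agent.Vpd Pool.Agent.Vpt
open scoped ComplexConjugate

namespace Pool.Agent.Vpw

/-- The counting condition. -/
theorem count_cond2 {n m E e κ M P : ℝ} (hm : 0 < m) (hmn : m ≤ n) (hE : 1 ≤ E) (heE : e ≤ E)
    (hEm : 10 ^ 60 * E ≤ m) (hm2 : 10 ^ 8 * n ≤ m ^ 2)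
    (hκ1 : 100 * (n / m) ≤ κ) (hκ2 : κ ≤ 100 * (n / m) + 1)
    (hM : (m - 2 * (5 * 10 ^ 12 * E)) / 2 ≤ M) (hMm : M ≤ m) (hP0 : 0 ≤ P)
    (hP : P ≤ 10 ^ 45 * E ^ 2) :
    (4 * (6 * κ + 1) * (M * e + 2 * P) + (3 * κ + 18 * (6 * κ + 1)) * (2 * P)) / (n / 2000) +
      2 * κ + n / κ < M - 1 := by
  have hn0 : 0 < n := lt_of_lt_of_le hm hmn
  have hnm : 1 ≤ n / m := by rwa [le_div_iff₀ hm, one_mul]
  have hκ101 : κ ≤ 101 * (n / m) := by linarith
  have hκ100 : 100 ≤ κ := by linarith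
  have hκ0 : 0 < κ := by linarith
  have hnm2 : n / m ≤ m / 10 ^ 8 := by
    rw [div_le_div_iff₀ hm (by norm_num)]
    nlinarith
  have hM0 : 0 ≤ M := by
    refine le_trans ?_ hM
    linarith
  -- last term
  have t1 : n / κ ≤ m / 100 := by
    rw [div_le_div_iff₀ hκ0 (by norm_num)]
    have h2 : n = (n / m) * m := by field_simp
    calc n * 100 = 100 * (n / m) * m := by rw [mul_assoc, ← h2]; ring
      _ ≤ κ * m := mul_le_mul_of_nonneg_right hκ1 hm.le
      _ = m * κ := by ring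
  have hPm : P ≤ m * E / 10 ^ 15 := by
    refine hP.trans ?_
    have h2 : 10 ^ 60 * E * E ≤ m * E := mul_le_mul_of_nonneg_right hEm (by linarith)
    rw [le_div_iff₀ (by norm_num)]
    nlinarith
  have hMe : M * e ≤ m * E := by
    calc M * e ≤ M * E := mul_le_mul_of_nonneg_left heE hM0
      _ ≤ m * E := mul_le_mul_of_nonneg_right hMm (by linarith)
  have hmE : 0 < m * E := by positivity
  -- first term
  have t2 : (4 * (6 * κ + 1) * (M * e + 2 * P) + (3 * κ + 18 * (6 * κ + 1)) * (2 * P)) /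
      (n / 2000) ≤ 10 ^ 7 * E := by
    rw [div_le_iff₀ (by positivity)]
    have b1 : 4 * (6 * κ + 1) * (M * e + 2 * P) ≤ 28 * κ * (m * E + 2 * P) := by
      have c1 : 4 * (6 * κ + 1) * (M * e + 2 * P) ≤ 4 * (6 * κ + 1) * (m * E + 2 * P) :=
        mul_le_mul_of_nonneg_left (by linarith) (by positivity)
      exact c1.trans (mul_le_mul_of_nonneg_right (by linarith) (by positivity))
    have b2 : (3 * κ + 18 * (6 * κ + 1)) * (2 * P) ≤ 129 * κ * (2 * P) :=
      mul_le_mul_of_nonneg_right (by linarith) (by positivity)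
    have b3 : κ * P ≤ κ * (m * E / 10 ^ 15) := mul_le_mul_of_nonneg_left hPm hκ0.le
    have b4 : κ * (m * E) ≤ 101 * (n / m) * (m * E) := mul_le_mul_of_nonneg_right hκ101 hmE.le
    have b5 : 101 * (n / m) * (m * E) = 101 * (n * E) := by field_simp
    have b6 : 0 < κ * (m * E) := by positivity
    have b7 : κ * (m * E / 10 ^ 15) = κ * (m * E) / 10 ^ 15 := by ring
    nlinarith
  linarith

/-- The core, linear form. -/
theorem mainE {X S : Finset ℂ} {e : ℝ} (h : Sys X e) (h0 : ∑ x ∈ X, x = 0)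
    (h1 : ∑ x ∈ X, ‖x‖ ^ 2 = X.card) (hcol : NoCol X) (hcirc : NoCirc X) (hSX : S ⊆ X)
    (hcase : (∀ y ∈ S, y ∉ convexHull ℝ ((S : Set ℂ) \ {y})) ∨
      ∃ w : ℂ, ‖w‖ = 1 ∧ ∀ p ∈ S, ∀ q ∈ S, 19 / 20 * dist p q ≤ |((q - p) * conj w).re|)
    (hS1 : ∀ y ∈ S, dist y 1 ≤ 1 / 100)
    (hS : 10 ^ 60 * (e + 1) ≤ S.card) (hS2 : 10 ^ 8 * (X.card : ℝ) ≤ (S.card : ℝ) ^ 2) : False := by
  classical
  have he0 := h.nonneg
  have hSX' : (S.card : ℝ) ≤ X.card := by exact_mod_cast Finset.card_le_card hSX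
  have hSpos : (0 : ℝ) < S.card := by linarith
  have hnpos : (0 : ℝ) < X.card := by linarith
  set n : ℝ := (X.card : ℝ) with hn
  set m : ℝ := (S.card : ℝ) with hmdef
  have hcardE : (X.card : ℝ) = n := rfl
  have hnE : 10 ^ 60 * (e + 1) ≤ n := hS.trans hSX'
  have hne : X.Nonempty := by
    rw [← Finset.card_pos]
    exact Nat.cast_pos.1 hnpos
  have hA := annulus h hne h0 h1 (by nlinarith)
  set T : ℝ := 5 * e / X.card with hTdef
  have hT0 : 0 ≤ T := by positivity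
  set g : ℝ := 2 * 10 ^ 12 * (e + 1) / n with hg
  have hg0 : 0 < g := by positivity
  have hng : n * g = 2 * 10 ^ 12 * (e + 1) := by rw [hg, mul_div_cancel₀ _ hnpos.ne']
  have hg8 : g ≤ 1 / 10 ^ 8 := by
    rw [hg, div_le_iff₀ hnpos]
    nlinarith
  have hTg : T ≤ g / 10 ^ 11 := by
    rw [hTdef, hg, div_div, mul_comm n, ← div_div]
    apply div_le_div_of_nonneg_right _ hnpos.le
    rw [le_div_iff₀ (by norm_num)]
    nlinarith
  have hng' : 2 * 10 ^ 12 * (e + 1) ≤ X.card * g := hng.ge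
  set K : ℝ := 5 * 10 ^ 12 * (e + 1) with hK
  have hKub : ∀ y ∈ X, ((ball X y g).card : ℝ) ≤ K := by
    intro y hy
    have h1 := upper hA hg0 hg8 hTg hng' (ρ := g) le_rfl (hg8.trans (by norm_num)) hy
    have h2 : 2 * n * g + e ≤ K := by
      have : 2 * n * g = 4 * 10 ^ 12 * (e + 1) := by linarith
      rw [this, hK]
      nlinarith
    exact h1.trans h2
  have hT6 : T ≤ 1 / 10 ^ 6 := by
    refine hTg.trans ?_
    rw [div_le_iff₀ (by norm_num)]
    linarith
  have h30 : 30 * T ≤ g := by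
    have : g / 10 ^ 11 ≤ g / 30 := div_le_div_of_nonneg_left hg0.le (by norm_num) (by norm_num)
    linarith
  obtain ⟨M, hM, p, hpS, hp⟩ : ∃ M : ℕ, ((S.card : ℝ) - 2 * K) / 2 ≤ M ∧ ∃ p : ℕ → ℂ,
      (∀ k < M, p k ∈ S) ∧ ∀ j k, j < k → k < M → Step (p j) (p k) := by
    rcases hcase with hconv | ⟨w, hw, hlip⟩
    · exact curve hA (hT6.trans (by norm_num)) h30 hKub hSX hcol hconv hS1
    · have hKS : K < S.card := by
        rw [hK]
        linarith
      obtain ⟨p, hp1, hp2⟩ := lip_curve hA h30 hKub hSX hw hlip hS1 hKS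
      refine ⟨S.card, ?_, p, hp1, hp2⟩
      have hK0 : 0 ≤ K := by positivity
      linarith
  have hpX : ∀ k < M, p k ∈ X := fun k hk => hSX (hpS k hk)
  have hpinj : ∀ i < M, ∀ j < M, p i = p j → i = j := by
    intro i hi j hj hij
    rcases lt_trichotomy i j with hlt | heq | hgt
    · have := (hp i j hlt hj).up
      rw [hij] at this
      exact absurd this (lt_irrefl _)
    · exact heq
    · have := (hp j i hgt hi).up
      rw [hij] at this
      exact absurd this (lt_irrefl _)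
  have hMm : (M : ℝ) ≤ m := by
    have : M ≤ S.card := by
      have h2 : (range M).card ≤ S.card := Finset.card_le_card_of_injOn p
        (fun k hk => hpS k (Finset.mem_range.1 (by simpa using hk)))
        (fun i hi j hj hij => hpinj i (by simpa using hi) j (by simpa using hj) hij)
      rwa [Finset.card_range] at h2
    have h5 : (M : ℝ) ≤ (S.card : ℝ) := by exact_mod_cast this
    exact h5
  -- close pairs
  have hs := slp hA (by rw [hcardE]; linarith)
  have hP := pairs_bound2 hA hcol (by rw [hcardE]; linarith) hs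
  set P : ℝ := ((CP X (50 * (2 * (10 ^ 5 * (e + 1) / X.card) ^ 2))).card : ℝ) with hPdef
  have hP0 : 0 ≤ P := Nat.cast_nonneg _
  have a2 : ∑ k ∈ range M, ((coin X (p k)).card : ℝ) ≤ 2 * P := by
    have h2 : ∑ k ∈ range M, ((coin X (p k)).card : ℝ) =
        ∑ x ∈ (range M).image p, ((coin X x).card : ℝ) := by
      rw [Finset.sum_image (fun a ha b hb hab => hpinj a (by simpa using ha) b
        (by simpa using hb) hab)]
    rw [h2]
    have a3 := sum_coin_pairs hA hT6 hcol hs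
    refine le_trans (Finset.sum_le_sum_of_subset_of_nonneg ?_ (fun _ _ _ => by positivity)) a3
    intro x hx
    rw [Finset.mem_image] at hx
    obtain ⟨i, hi, rfl⟩ := hx
    exact hpX i (Finset.mem_range.1 hi)
  have a5 := sum_unst_pairs hA hT6 hs hp
  -- the window
  have hmn : m ≤ n := hSX'
  have hnm : 1 ≤ n / m := by rwa [le_div_iff₀ hSpos, one_mul]
  have hκ1 := Nat.le_ceil (100 * (n / m))
  have hκ2 : (⌈100 * (n / m)⌉₊ : ℝ) ≤ 100 * (n / m) + 1 :=
    (Nat.ceil_lt_add_one (by positivity)).le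
  have hκ0 : 0 < ⌈100 * (n / m)⌉₊ := Nat.ceil_pos.2 (by positivity)
  refine rows_contra hA hg0 hg8 hTg hng' hcol hcirc hpX hp (κ := ⌈100 * (n / m)⌉₊) hκ0 ?_ a2 a5 ?_
  · push_cast
    have h2 : (⌈100 * (n / m)⌉₊ : ℝ) ≤ 101 * (n / m) := by linarith
    rw [hg]
    have h3 : 6 * (⌈100 * (n / m)⌉₊ : ℝ) * (2 * 10 ^ 12 * (e + 1) / n) ≤
        6 * (101 * (n / m)) * (2 * 10 ^ 12 * (e + 1) / n) :=
      mul_le_mul_of_nonneg_right (by linarith) (by positivity)
    refine h3.trans ?_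
    have h4 : 6 * (101 * (n / m)) * (2 * 10 ^ 12 * (e + 1) / n) =
        (6 * 101 * (2 * 10 ^ 12)) * (e + 1) / m := by
      field_simp
    rw [h4, div_le_iff₀ hSpos]
    linarith
  · rw [hcardE]
    exact count_cond2 (m := m) (E := e + 1) (P := P) hSpos hmn (by linarith) (by linarith) hS hS2
      hκ1 hκ2 (by rw [← hK]; exact hM) hMm hP0 (by rw [hPdef]; exact hP)

end Pool.Agent.Vpw
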