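import Pool.Agent.Lib.Vpw.BlockErr2
import Pool.Agent.Lib.Vpt.Blocks

/-!
# Weighted twin lemma, blocks isolated among the good distances (MP_733c86_co)
-/

set_option autoImplicit false

open Finset Pool.Agent.Vps Pool.Agent.Vps.BlockSumAux Pool.Agent.Vpt
open scoped ComplexConjugate

namespace Pool.Agent.Vpw

open Classical in
/-- The points at a distance in `Z` from `x2`. -/
theorem card_lost {X : Finset ℂ} {e : ℝ} (h : Sys X e) {x1 x2 : ℂ} (hx2 : x2 ∈ X)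
    {Z : Finset ℝ} {J : Finset (ℝ × ℝ)}
    (hfar : ∀ p ∈ J, dist x1 x2 < p.1)
    (hdis : (J : Set (ℝ × ℝ)).PairwiseDisjoint fun p => LB X x1 x2 Z p.1 p.2) :
    (∑ p ∈ J, ((LB X x1 x2 Z p.1 p.2).card : ℝ)) ≤ 2 * Z.card := by
  have h1 : (J.biUnion fun p => LB X x1 x2 Z p.1 p.2).card =
      ∑ p ∈ J, (LB X x1 x2 Z p.1 p.2).card := Finset.card_biUnion hdis
  have h2 : (J.biUnion fun p => LB X x1 x2 Z p.1 p.2).card ≤ 2 * Z.card := by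
    refine (Finset.card_le_card (t := Z.biUnion fun d => X.filter fun y => y ≠ x2 ∧
      dist x2 y = d) ?_).trans ?_
    · intro y hy
      obtain ⟨p, hp, hy'⟩ := Finset.mem_biUnion.1 hy
      simp only [LB, Finset.mem_filter] at hy'
      refine Finset.mem_biUnion.2 ⟨dist x2 y, hy'.2.2.2.2, Finset.mem_filter.2
        ⟨hy'.1, ?_, rfl⟩⟩
      rintro rfl
      have := hfar p hp
      linarith [hy'.2.2.1.1]
    · refine Finset.card_biUnion_le.trans ?_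
      calc ∑ d ∈ Z, (X.filter fun y => y ≠ x2 ∧ dist x2 y = d).card
          ≤ ∑ _d ∈ Z, 2 := Finset.sum_le_sum fun d _ => h.valid x2 hx2 d
        _ = 2 * Z.card := by rw [Finset.sum_const, smul_eq_mul, mul_comm]
  rw [h1] at h2
  exact_mod_cast h2

open Classical in
/-- One window: the union of the sets of the blocks. -/
theorem twin_window2 {X : Finset ℂ} {e T : ℝ} (h : Ann X e T) (hT : T ≤ 1 / 10 ^ 6) {δ ℓ m : ℝ}
    (hδ : δ ≤ 1 / 10 ^ 6) {x1 x2 : ℂ} (hx1 : x1 ∈ X) (hx2 : x2 ∈ X)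
    (h12 : dist x1 x2 ≤ δ) {Z : Finset ℝ}
    (hZ : ∀ d ∈ Dset X, 3 / 10 ≤ d → d ≤ 19 / 10 → d ∉ Z → Fine X x1 d ∧ Fine X x2 d)
    {A A' : ℝ} (hA : 4 / 10 ≤ A) (hA' : A' ≤ 18 / 10)
    {J : Finset (ℝ × ℝ)} (hJ : Blocks (Dset X \ Z) δ ℓ A A' J) (hm : 0 < m)
    (hc : m + 2 * Z.card ≤
      (((Dset X \ Z).filter fun d => ∃ p ∈ J, p.1 ≤ d ∧ d ≤ p.2).card : ℝ)) :
    ∃ S : Finset ℂ, S.Nonempty ∧ m ≤ (S.card : ℝ) ∧
      (∀ y ∈ S, y ∈ X ∧ A ≤ dist x1 y ∧ dist x1 y ≤ A' ∧ 0 < (y * conj x1).im) ∧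
      |∑ y ∈ S, (dist x1 y ^ 2 - dist x2 y ^ 2)| ≤ 8 * ℓ * Z.card := by
  set F : ℝ × ℝ → Finset ℂ := fun p => SB X x1 x2 Z p.1 p.2 with hF
  set W : ℝ × ℝ → Finset ℂ := fun p => LB X x1 x2 Z p.1 p.2 with hW
  set V : ℝ × ℝ → Finset ℝ := fun p => (Dset X \ Z).filter fun d => p.1 ≤ d ∧ d ≤ p.2 with hV
  have hdisF : (J : Set (ℝ × ℝ)).PairwiseDisjoint F := by
    intro p hp q hq hpq
    refine Finset.disjoint_left.2 fun y hy hy' => ?_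
    simp only [hF, SB, Finset.mem_filter] at hy hy'
    rcases hJ.disj p hp q hq hpq with h1 | h1
    · linarith [hy.2.2.1.2, hy'.2.2.1.1]
    · linarith [hy'.2.2.1.2, hy.2.2.1.1]
  have hdisW : (J : Set (ℝ × ℝ)).PairwiseDisjoint W := by
    intro p hp q hq hpq
    refine Finset.disjoint_left.2 fun y hy hy' => ?_
    simp only [hW, LB, Finset.mem_filter] at hy hy'
    rcases hJ.disj p hp q hq hpq with h1 | h1
    · linarith [hy.2.2.1.2, hy'.2.2.1.1]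
    · linarith [hy'.2.2.1.2, hy.2.2.1.1]
  have hblk : ∀ p ∈ J, |∑ y ∈ F p, (dist x1 y ^ 2 - dist x2 y ^ 2)| ≤ 4 * ℓ * ((W p).card : ℝ) ∧
      ((V p).card : ℝ) = ((F p).card : ℝ) + ((W p).card : ℝ) := by
    intro p hp
    obtain ⟨h1, h2, h3, h4⟩ := hJ.le p hp
    exact block_err2 h hT hδ hx1 hx2 h12 (by linarith) (by linarith) h1 h2 (hJ.iso p hp)
      (fun d hd hd1 hd2 hdZ => hZ d hd (by linarith) (by linarith) hdZ)
  have hJne : J.Nonempty := by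
    by_contra hne
    rw [Finset.not_nonempty_iff_eq_empty] at hne
    subst hne
    simp only [Finset.notMem_empty, false_and, exists_false, Finset.filter_false,
      Finset.card_empty, Nat.cast_zero] at hc
    have : (0 : ℝ) ≤ Z.card := Nat.cast_nonneg _
    linarith
  have hℓ : 0 ≤ ℓ := by
    obtain ⟨p, hp⟩ := hJne
    have := hJ.le p hp
    linarith [this.1, this.2.1]
  have hWsum : (∑ p ∈ J, ((W p).card : ℝ)) ≤ 2 * Z.card := by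
    refine card_lost h.toSys hx2 (fun p hp => ?_) hdisW
    obtain ⟨-, -, h3, -⟩ := hJ.le p hp
    linarith
  have hScard : ((J.biUnion F).card : ℝ) = ∑ p ∈ J, ((F p).card : ℝ) := by
    rw [Finset.card_biUnion hdisF]
    push_cast
    rfl
  have hVsum : (((Dset X \ Z).filter fun d => ∃ p ∈ J, p.1 ≤ d ∧ d ≤ p.2).card : ℝ) ≤
      ∑ p ∈ J, ((V p).card : ℝ) := by
    have h1 : ((Dset X \ Z).filter fun d => ∃ p ∈ J, p.1 ≤ d ∧ d ≤ p.2) ⊆ J.biUnion V := by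
      intro d hd
      obtain ⟨hd1, p, hp, hp1⟩ := Finset.mem_filter.1 hd
      exact Finset.mem_biUnion.2 ⟨p, hp, Finset.mem_filter.2 ⟨hd1, hp1⟩⟩
    have h2 := (Finset.card_le_card h1).trans Finset.card_biUnion_le
    exact_mod_cast h2
  have hmS : m ≤ ((J.biUnion F).card : ℝ) := by
    have h1 : (∑ p ∈ J, ((V p).card : ℝ)) = ∑ p ∈ J, (((F p).card : ℝ) + ((W p).card : ℝ)) :=
      Finset.sum_congr rfl fun p hp => (hblk p hp).2
    rw [Finset.sum_add_distrib, ← hScard] at h1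
    linarith
  refine ⟨J.biUnion F, ?_, hmS, ?_, ?_⟩
  · rw [← Finset.card_pos]
    have : (0 : ℝ) < ((J.biUnion F).card : ℝ) := lt_of_lt_of_le hm hmS
    exact_mod_cast this
  · intro y hy
    obtain ⟨p, hp, hy'⟩ := Finset.mem_biUnion.1 hy
    simp only [hF, SB, Finset.mem_filter] at hy'
    obtain ⟨h1, h2, h3, h4⟩ := hJ.le p hp
    exact ⟨hy'.1, h3.trans hy'.2.2.1.1, hy'.2.2.1.2.trans h4, hy'.2.1⟩
  · rw [Finset.sum_biUnion hdisF]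
    refine (Finset.abs_sum_le_sum_abs _ _).trans ?_
    refine (Finset.sum_le_sum fun p hp => (hblk p hp).1).trans ?_
    rw [← Finset.mul_sum]
    have := mul_le_mul_of_nonneg_left hWsum (by linarith : (0 : ℝ) ≤ 4 * ℓ)
    linarith

/-- The linear algebra of the two windows. -/
theorem twin_linear2 {δ n t α1 β1 α2 β2 : ℝ} (hδ0 : 0 < δ)
    (h1 : |α1 * n - β1 * t| ≤ 8 * δ / 10 ^ 4) (h2 : |α2 * n - β2 * t| ≤ 8 * δ / 10 ^ 4)
    (ha1 : 178 / 1000 ≤ α1) (ha1' : α1 ≤ 322 / 1000) (hb1 : 569 / 1000 ≤ β1)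
    (hb1' : β1 ≤ 736 / 1000) (ha2 : 718 / 1000 ≤ α2) (hb2 : 958 / 1000 ≤ β2)
    (hb2' : β2 ≤ 1002 / 1000) : n ^ 2 + t ^ 2 ≤ δ ^ 2 / 100 := by
  obtain ⟨h1a, h1b⟩ := abs_le.1 h1
  obtain ⟨h2a, h2b⟩ := abs_le.1 h2
  set ε1 := α1 * n - β1 * t with hε1
  set ε2 := α2 * n - β2 * t with hε2
  have hdet : 85 / 1000 ≤ α2 * β1 - α1 * β2 := by
    have e1 : 718 / 1000 * (569 / 1000) ≤ α2 * β1 :=
      mul_le_mul ha2 hb1 (by norm_num) (by linarith)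
    have e2 : α1 * β2 ≤ 322 / 1000 * (1002 / 1000) :=
      mul_le_mul ha1' hb2' (by linarith) (by norm_num)
    linarith
  have hn : (α2 * β1 - α1 * β2) * n = β1 * ε2 - β2 * ε1 := by
    rw [hε1, hε2]; ring
  have hη : 0 < 8 * δ / 10 ^ 4 := by positivity
  have hrhs : |β1 * ε2 - β2 * ε1| ≤ 1738 / 1000 * (8 * δ / 10 ^ 4) := by
    have e1 : |β1 * ε2| ≤ 736 / 1000 * (8 * δ / 10 ^ 4) := by
      rw [abs_mul, abs_of_nonneg (by linarith : 0 ≤ β1)]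
      exact mul_le_mul hb1' h2 (abs_nonneg _) (by norm_num)
    have e2 : |β2 * ε1| ≤ 1002 / 1000 * (8 * δ / 10 ^ 4) := by
      rw [abs_mul, abs_of_nonneg (by linarith : 0 ≤ β2)]
      exact mul_le_mul hb2' h1 (abs_nonneg _) (by norm_num)
    have := abs_sub (β1 * ε2) (β2 * ε1)
    linarith
  have hnabs : |n| ≤ 18 / 1000 * δ := by
    have e1 : 85 / 1000 * |n| ≤ |β1 * ε2 - β2 * ε1| := by
      rw [← hn, abs_mul, abs_of_nonneg (by linarith : 0 ≤ α2 * β1 - α1 * β2)]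
      exact mul_le_mul_of_nonneg_right hdet (abs_nonneg _)
    linarith
  have htabs : |t| ≤ 20 / 1000 * δ := by
    have e1 : β1 * t = α1 * n - ε1 := by rw [hε1]; ring
    have e2 : 569 / 1000 * |t| ≤ |β1 * t| := by
      rw [abs_mul, abs_of_nonneg (by linarith : 0 ≤ β1)]
      exact mul_le_mul_of_nonneg_right hb1 (abs_nonneg _)
    have e3 : |α1 * n - ε1| ≤ |α1 * n| + |ε1| := abs_sub _ _
    have e4 : |α1 * n| ≤ 322 / 1000 * (18 / 1000 * δ) := by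
      rw [abs_mul, abs_of_nonneg (by linarith : 0 ≤ α1)]
      exact mul_le_mul ha1' hnabs (abs_nonneg _) (by norm_num)
    rw [e1] at e2
    linarith
  have q1 : n ^ 2 ≤ (18 / 1000 * δ) ^ 2 := by
    rw [← sq_abs n]
    exact pow_le_pow_left₀ (abs_nonneg _) hnabs 2
  have q2 : t ^ 2 ≤ (20 / 1000 * δ) ^ 2 := by
    rw [← sq_abs t]
    exact pow_le_pow_left₀ (abs_nonneg _) htabs 2
  nlinarith [sq_nonneg δ]

open Classical in
/-- PROOF. For the window `J1` let `S` be the union over `p ∈ J1` of the disjoint sets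
`SB X x1 x2 Z p.1 p.2` (disjoint by `Blocks.disj`: `dist x1 y` is in disjoint intervals). The
`LB X x1 x2 Z p.1 p.2` are disjoint too, contained in `{y ∈ X : y ≠ x2, dist x2 y ∈ Z}` (`y ≠ x2`
because `dist x1 y ≥ 6/10 > dist x1 x2`), which has at most `2 card Z` elements (`valid`). By
`block_err2`, summed over the blocks: `|∑ y ∈ S, (dist x1 y ^ 2 - dist x2 y ^ 2)| ≤ 8 ℓ card Z` and
`card S ≥ (number of elements of Dset X \ Z in the blocks) - 2 card Z ≥ m > 0`. `frame_bounds1` and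
`vec_of_sum_err` with `σ = 8 ℓ card Z`: `|α₁ n - β₁ t| ≤ η := 8 ℓ card Z / m ≤ 8 δ / 10 ^ 4`,
`α₁ ≤ 0.322`, `β₁ ∈ [0.569, 0.736]`. Same for `J2`, `frame_bounds2`: `|α₂ n - β₂ t| ≤ η`,
`α₂ ≥ 0.718`, `β₂ ≤ 1.002`, `α₂ ≤ 1`. So `(α₂ β₁ - α₁ β₂) |n| ≤ η (β₁ + β₂)`, `α₂ β₁ - α₁ β₂ ≥ 0.085`:
`|n| ≤ 0.018 δ`, then `|t| ≤ (η + 0.322 |n|) / 0.569 ≤ 0.02 δ` (`0.17 ≤ α₁`), but
`n ^ 2 + t ^ 2 = ‖x1 - x2‖ ^ 2 ‖x1‖ ^ 2 ≥ 0.99 δ ^ 2`. (Same end as `Vpt.twin`.) -/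
theorem twin2 {X : Finset ℂ} {e T : ℝ} (h : Ann X e T) (hT : T ≤ 1 / 10 ^ 6) {δ ℓ m : ℝ}
    (hδ0 : 0 < δ) (hδ : δ ≤ 1 / 10 ^ 6) {x1 x2 : ℂ} (hx1 : x1 ∈ X) (hx2 : x2 ∈ X)
    (h12 : dist x1 x2 = δ) {Z : Finset ℝ}
    (hZ : ∀ d ∈ Dset X, 3 / 10 ≤ d → d ≤ 19 / 10 → d ∉ Z → Fine X x1 d ∧ Fine X x2 d)
    {J1 J2 : Finset (ℝ × ℝ)} (hJ1 : Blocks (Dset X \ Z) δ ℓ (6 / 10) (8 / 10) J1)
    (hJ2 : Blocks (Dset X \ Z) δ ℓ (12 / 10) (14 / 10) J2) (hm : 0 < m)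
    (hc1 : m + 2 * Z.card ≤
      (((Dset X \ Z).filter fun d => ∃ p ∈ J1, p.1 ≤ d ∧ d ≤ p.2).card : ℝ))
    (hc2 : m + 2 * Z.card ≤
      (((Dset X \ Z).filter fun d => ∃ p ∈ J2, p.1 ≤ d ∧ d ≤ p.2).card : ℝ))
    (hℓ : 10 ^ 4 * (ℓ * Z.card) ≤ δ * m) : False := by
  obtain ⟨S1, hne1, hm1, hS1, hs1⟩ := twin_window2 h hT hδ hx1 hx2 h12.le hZ (by norm_num)
    (by norm_num) hJ1 hm hc1
  obtain ⟨S2, hne2, hm2, hS2, hs2⟩ := twin_window2 h hT hδ hx1 hx2 h12.le hZ (by norm_num)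
    (by norm_num) hJ2 hm hc2
  have hax1 := h.ann x1 hx1
  have f1 : ∀ y ∈ S1, (679 / 1000 ≤ (y * conj x1).re ∧ (y * conj x1).re ≤ 821 / 1000) ∧
      (570 / 1000 ≤ (y * conj x1).im ∧ (y * conj x1).im ≤ 735 / 1000) := fun y hy =>
    frame_bounds1 hT hax1 (h.ann y (hS1 y hy).1) (hS1 y hy).2.1 (hS1 y hy).2.2.1 (hS1 y hy).2.2.2
  have f2 : ∀ y ∈ S2, (19 / 1000 ≤ (y * conj x1).re ∧ (y * conj x1).re ≤ 281 / 1000) ∧
      (959 / 1000 ≤ (y * conj x1).im ∧ (y * conj x1).im ≤ 1001 / 1000) := fun y hy =>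
    frame_bounds2 hT hax1 (h.ann y (hS2 y hy).1) (hS2 y hy).2.1 (hS2 y hy).2.2.1 (hS2 y hy).2.2.2
  obtain ⟨α1, β1, g1, a1, a1', b1, b1'⟩ := vec_of_sum_err hT hδ hax1 h12.le hne1
    (fun y hy => (f1 y hy).1) (fun y hy => (f1 y hy).2) hs1
  obtain ⟨α2, β2, g2, a2, a2', b2, b2'⟩ := vec_of_sum_err hT hδ hax1 h12.le hne2
    (fun y hy => (f2 y hy).1) (fun y hy => (f2 y hy).2) hs2
  have hη : ∀ k : ℝ, m ≤ k → 8 * ℓ * Z.card / k ≤ 8 * δ / 10 ^ 4 := by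
    intro k hk
    have hk0 : 0 < k := lt_of_lt_of_le hm hk
    rw [div_le_div_iff₀ hk0 (by norm_num)]
    have e1 : δ * m ≤ δ * k := mul_le_mul_of_nonneg_left hk hδ0.le
    nlinarith
  have q := twin_linear2 hδ0 (g1.trans (hη _ hm1)) (g2.trans (hη _ hm2)) (by linarith)
    (by linarith) (by linarith) (by linarith) (by linarith) (by linarith) (by linarith)
  rw [← norm_sq_frame, ← Complex.dist_eq, h12] at q
  have hn1 : 99 / 100 ≤ ‖x1‖ ^ 2 := by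
    have := (abs_le.1 hax1).1
    linarith
  have hδ2 : 0 < δ ^ 2 := by positivity
  nlinarith

end Pool.Agent.Vpw
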